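import Pool.Agent.V5helper12.FJ.Chain

/-!
# The arithmetic of weighted complete intersections: two weights with a common degree
-/

set_option autoImplicit false
set_option linter.unusedSectionVars false

namespace Pool.Agent.V5helper12.FJ

open Finset

variable {ι κ : Type*} [Fintype ι] [DecidableEq ι] [Fintype κ] [DecidableEq κ]

theorem countP_mono {z z' : ℕ} (h : z ∣ z') (W : Multiset ℕ) :
    W.countP (fun w => z' ∣ w) ≤ W.countP (fun w => z ∣ w) := by
  induction W using Multiset.induction_on with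
  | empty => simp
  | cons w W ih =>
    rw [Multiset.countP_cons, Multiset.countP_cons]
    by_cases h1 : z' ∣ w
    · rw [if_pos h1, if_pos (h.trans h1)]
      omega
    · rw [if_neg h1]
      split_ifs <;> omega

/-- the semigroup generated by the weights `a i`, `i ∈ I` -/
def sg (a : ι → ℕ) (I : Finset ι) : AddSubmonoid ℕ where
  carrier := {n | ∃ m : ι → ℕ, ∑ k ∈ I, m k * a k = n}
  zero_mem' := ⟨0, by simp⟩
  add_mem' := by
    rintro _ _ ⟨m, rfl⟩ ⟨m', rfl⟩
    exact ⟨m + m', by simp [add_mul, Finset.sum_add_distrib]⟩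

theorem mem_sg {a : ι → ℕ} {I : Finset ι} {n : ℕ} :
    n ∈ sg a I ↔ ∃ m : ι → ℕ, ∑ k ∈ I, m k * a k = n := Iff.rfl

theorem mem_sg_of_mem {a : ι → ℕ} {I : Finset ι} {i : ι} (hi : i ∈ I) : a i ∈ sg a I :=
  ⟨fun k => if k = i then 1 else 0, by simp [hi]⟩

theorem mul_mem_sg {a : ι → ℕ} {I : Finset ι} {i : ι} (hi : i ∈ I) (t : ℕ) :
    t * a i ∈ sg a I := by
  rw [← smul_eq_mul]
  exact (sg a I).nsmul_mem (mem_sg_of_mem hi) _

/-- the data -/
structure Sys (a : ι → ℕ) (d : κ → ℕ) (I : Finset ι) : Prop where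
  ha : ∀ i, 0 < a i
  hd : ∀ j, 0 < d j
  h1 : ∀ z, 1 < z → (univ.filter fun i => z ∣ a i).card ≤ (univ.filter fun j => z ∣ d j).card
  hI : I.Nonempty
  hI1 : ∀ i ∈ I, 1 < a i
  hIg : I.gcd a = 1
  h2 : ∀ i ∈ I, ∀ k, k ≠ i → ∀ j, Nat.gcd (a i) (a k) ∣ d j
  h3 : ∀ i ∈ I, ∃ j, a i ∣ d j ∧ ∃ m : ι → ℕ, ∑ k ∈ I, m k * a k = d j ∧ ∃ k ∈ I, k ≠ i ∧ m k ≠ 0

variable {a : ι → ℕ} {d : κ → ℕ} {I : Finset ι}

/-- a single weight divides a degree -/
theorem Sys.exists_dvd (S : Sys a d I) [Nonempty κ] (i : ι) : ∃ j, a i ∣ d j := by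
  classical
  by_cases h : 1 < a i
  · have h1 := S.h1 (a i) h
    have h2 : 0 < (univ.filter fun k => a i ∣ a k).card :=
      card_pos.2 ⟨i, mem_filter.2 ⟨mem_univ _, dvd_rfl⟩⟩
    obtain ⟨j, hj⟩ := card_pos.1 (h2.trans_le h1)
    exact ⟨j, (mem_filter.1 hj).2⟩
  · have h1 : a i = 1 := by
      have := S.ha i
      omega
    exact ⟨Classical.arbitrary κ, h1 ▸ one_dvd _⟩

/-- a number all of whose prime power divisors divide `a i`, `i ∈ I`, and another weight, divides
all degrees -/
theorem Sys.dvd_all (S : Sys a d I) {z : ℕ} (hz : ∀ p r : ℕ, p.Prime → 0 < r → p ^ r ∣ z →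
    (∃ i ∈ I, p ^ r ∣ a i) ∧ 2 ≤ (univ.filter fun i => p ^ r ∣ a i).card) (j : κ) : z ∣ d j := by
  classical
  rw [Nat.dvd_iff_prime_pow_dvd_dvd]
  intro p r hp hpr
  rcases Nat.eq_zero_or_pos r with h0 | h0
  · rw [h0, pow_zero]
    exact one_dvd _
  · obtain ⟨⟨i, hi, hia⟩, hcard⟩ := hz p r hp h0 hpr
    obtain ⟨k, hk, hki⟩ := Finset.exists_mem_ne (by omega : 1 <
      (univ.filter fun i => p ^ r ∣ a i).card) i
    exact (Nat.dvd_gcd hia (mem_filter.1 hk).2).trans (S.h2 i hi k hki j)

theorem mem_sg_large_of_common (S : Sys a d I) {i₀ i₁ : ι} (hi₀ : i₀ ∈ I) (hi₁ : i₁ ∈ I)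
    (hne : i₁ ≠ i₀) {j₀ : κ} (hj0 : a i₀ ∣ d j₀) (hj1 : a i₁ ∣ d j₀) {e : ℕ}
    (he : ∑ j, (d j - 1) ≤ e + ∑ i, (a i - 1)) : e ∈ sg a I := by
  classical
  have : Nonempty κ := ⟨j₀⟩
  set rest : List ι := ((I.erase i₀).erase i₁).toList with hrest
  set ks : List ι := i₁ :: rest with hks
  have hmem : ∀ k ∈ ks, k ∈ I := by
    intro k hk
    rcases List.mem_cons.1 hk with rfl | hk
    · exact hi₁
    · exact Finset.mem_of_mem_erase (Finset.mem_of_mem_erase (Finset.mem_toList.1 hk))
  have hmem' : ∀ k ∈ I, k = i₀ ∨ k ∈ ks := by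
    intro k hk
    by_cases h0 : k = i₀
    · exact Or.inl h0
    · right
      by_cases h1 : k = i₁
      · rw [h1]
        exact List.mem_cons_self
      · exact List.mem_cons_of_mem _ (Finset.mem_toList.2
          (Finset.mem_erase.2 ⟨h1, Finset.mem_erase.2 ⟨h0, hk⟩⟩))
  have hi1e : i₁ ∈ I.erase i₀ := Finset.mem_erase.2 ⟨hne, hi₁⟩
  -- sums over `ks`
  have hsumks : ∀ g : ι → ℕ, g i₀ + (ks.map g).sum = ∑ i ∈ I, g i := by
    intro g
    rw [hks, List.map_cons, List.sum_cons, hrest, Finset.sum_map_toList,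
      Finset.add_sum_erase _ _ hi1e, Finset.add_sum_erase _ _ hi₀]
  -- the threshold
  have hstart : Th (sg a I) (a i₀) (1 - a i₀) := by
    rintro n ⟨t, ht⟩ hB
    have h0 : (0 : ℤ) < a i₀ := by exact_mod_cast S.ha i₀
    have ht0 : 0 ≤ t := by
      by_contra hcon
      push Not at hcon
      have : t ≤ -1 := by omega
      have : (a i₀ : ℤ) * t ≤ a i₀ * (-1) := mul_le_mul_of_nonneg_left this h0.le
      omega
    refine ⟨t.toNat * a i₀, mul_mem_sg hi₀ _, ?_⟩
    push_cast
    rw [Int.toNat_of_nonneg ht0, ht]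
    ring
  have hfin := hstart.chain ks (fun k hk => mem_sg_of_mem (hmem k hk)) (fun k _ => S.ha k)
    (S.ha i₀)
  have hG1 : Gl a (a i₀) ks = 1 := by
    have : Gl a (a i₀) ks ∣ I.gcd a := by
      refine Finset.dvd_gcd fun k hk => ?_
      rcases hmem' k hk with rfl | hk
      · exact Gl_dvd_left _ _ _
      · exact Gl_dvd_right _ _ _ k hk
    rw [S.hIg] at this
    exact Nat.dvd_one.1 this
  -- the inequality
  set W : Multiset ℕ := (Wl a (a i₀) ks : Multiset ℕ) + (univ \ I).val.map a with hW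
  set D : Multiset ℕ := (univ : Finset κ).val.map d with hD
  have hWpos : ∀ w ∈ Wl a (a i₀) ks, 0 < w := by
    intro w hw
    obtain ⟨k, hk, G', hG', rfl⟩ := mem_Wl hw
    exact Nat.lcm_pos (Nat.pos_of_dvd_of_pos hG' (S.ha _)) (S.ha _)
  have hDcount : ∀ z, D.countP (fun w => z ∣ w) = (univ.filter fun j => z ∣ d j).card := by
    intro z
    rw [hD, Multiset.countP_map]
    rfl
  have hKcount : ∀ z, ((univ \ I).val.map a).countP (fun w => z ∣ w) =
      ((univ \ I).filter fun i => z ∣ a i).card := by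
    intro z
    rw [Multiset.countP_map]
    rfl
  -- prime powers
  have hcountpp : ∀ p r : ℕ, p.Prime → W.countP (fun w => p ^ r ∣ w) ≤
      (univ.filter fun i => p ^ r ∣ a i).card := by
    intro p r hp
    rw [hW, Multiset.countP_add, hKcount, Multiset.coe_countP]
    have h1 := countP_Wl (r := r) hp ks (fun k _ => S.ha k) (S.ha i₀)
    have h2 : (ks.countP fun k => p ^ r ∣ a k) + (if p ^ r ∣ a i₀ then 1 else 0) =
        (I.filter fun i => p ^ r ∣ a i).card := by
      have h3 := hsumks (fun i => if p ^ r ∣ a i then 1 else 0)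
      rw [← Finset.card_filter] at h3
      rw [← h3, add_comm]
      congr 1
      rw [List.countP_eq_length_filter]
      clear_value ks
      clear * -
      induction ks with
      | nil => simp
      | cons k ks ih =>
        rw [List.map_cons, List.sum_cons, ← ih, List.filter_cons]
        by_cases h : p ^ r ∣ a k
        · simp [h, add_comm]
        · simp [h]
    have h4 : (I.filter fun i => p ^ r ∣ a i).card + ((univ \ I).filter fun i => p ^ r ∣ a i).card
        = (univ.filter fun i => p ^ r ∣ a i).card := by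
      rw [← Finset.card_union_of_disjoint]
      · congr 1
        ext x
        simp only [mem_union, mem_filter, mem_sdiff, mem_univ, true_and]
        tauto
      · refine Finset.disjoint_filter_filter ?_
        exact Finset.disjoint_sdiff
    omega
  have hcount : ∀ z, 1 < z → ¬ z ∣ 1 →
      W.countP (fun w => z ∣ w) ≤ D.countP (fun w => z ∣ w) := by
    intro z hz _
    by_cases hex : ∃ w ∈ Wl a (a i₀) ks, z ∣ w
    · obtain ⟨w, hw, hzw⟩ := hex
      -- `w` divides a degree
      have hwd : ∃ j, w ∣ d j := by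
        rcases List.mem_cons.1 (show w ∈ Nat.lcm (a i₀) (a i₁) ::
          Wl a (Nat.gcd (a i₀) (a i₁)) rest from hw) with h | h
        · exact ⟨j₀, h ▸ Nat.lcm_dvd hj0 hj1⟩
        · obtain ⟨k, hk, G', hG', rfl⟩ := mem_Wl h
          obtain ⟨j, hj⟩ := S.exists_dvd k
          exact ⟨j, Nat.lcm_dvd (hG'.trans (S.h2 i₀ hi₀ i₁ hne j)) hj⟩
      have hle : W.countP (fun w => z ∣ w) ≤ (univ.filter fun j => z ∣ d j).card := by
        rcases Nat.lt_or_ge (W.countP fun w => z ∣ w) 2 with hlt | hge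
        · obtain ⟨j, hj⟩ := hwd
          have : 0 < (univ.filter fun j => z ∣ d j).card :=
            card_pos.2 ⟨j, mem_filter.2 ⟨mem_univ _, hzw.trans hj⟩⟩
          omega
        · -- `z` divides all degrees
          have hall : ∀ j, z ∣ d j := by
            refine S.dvd_all ?_
            intro p r hp hr hprz
            have hmono : W.countP (fun w => z ∣ w) ≤ W.countP (fun w => p ^ r ∣ w) :=
              countP_mono hprz W
            refine ⟨?_, by have := hcountpp p r hp; omega⟩
            obtain ⟨k, hk, G', hG', rfl⟩ := mem_Wl hw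
            have hG'0 : G' ≠ 0 := (Nat.pos_of_dvd_of_pos hG' (S.ha _)).ne'
            rcases prime_pow_dvd_lcm hp hG'0 (S.ha k).ne' (hprz.trans hzw) with h | h
            · exact ⟨i₀, hi₀, h.trans hG'⟩
            · exact ⟨k, hmem k hk, h⟩
          obtain ⟨p, hp, hpz⟩ := Nat.exists_prime_and_dvd (by omega : z ≠ 1)
          have hmono : W.countP (fun w => z ∣ w) ≤ W.countP (fun w => p ^ 1 ∣ w) :=
            countP_mono (by rw [pow_one]; exact hpz) W
          have h5 := hcountpp p 1 hp
          rw [pow_one] at h5 hmono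
          have h6 := S.h1 p hp.one_lt
          have h7 : (univ.filter fun j => p ∣ d j).card ≤ (univ.filter fun j => z ∣ d j).card := by
            refine card_le_card fun j _ => ?_
            exact mem_filter.2 ⟨mem_univ _, hall j⟩
          omega
      rw [hDcount]
      exact hle
    · push Not at hex
      have h0 : (Wl a (a i₀) ks).countP (fun w => z ∣ w) = 0 := by
        rw [List.countP_eq_zero]
        intro w hw
        simpa using hex w hw
      rw [hW, Multiset.countP_add, hKcount, Multiset.coe_countP, h0, zero_add, hDcount]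
      refine le_trans (card_le_card ?_) (S.h1 z hz)
      intro i hi
      exact mem_filter.2 ⟨mem_univ _, (mem_filter.1 hi).2⟩
  have hmain := sum_le_of_count (M := 1) W D (by
      intro w hw
      rcases Multiset.mem_add.1 hw with h | h
      · exact hWpos w h
      · obtain ⟨i, -, rfl⟩ := Multiset.mem_map.1 h
        exact S.ha i) (by
      intro w hw
      obtain ⟨j, -, rfl⟩ := Multiset.mem_map.1 hw
      exact S.hd j) hcount
  simp only [Nat.gcd_one_right] at hmain
  rw [hW, Multiset.map_add, Multiset.sum_add, Multiset.map_map] at hmain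
  have e1 : (((univ \ I).val.map ((fun w => w - 1) ∘ a))).sum = ∑ i ∈ univ \ I, (a i - 1) := rfl
  have e2 : (D.map fun w => w - 1).sum = ∑ j, (d j - 1) := by
    rw [hD, Multiset.map_map]
    rfl
  have e3 : (((Wl a (a i₀) ks : List ℕ) : Multiset ℕ).map fun w => w - 1).sum + ks.length =
      (Wl a (a i₀) ks).sum := by
    rw [Multiset.map_coe, Multiset.sum_coe, ← length_Wl a (a i₀) ks]
    clear_value W
    clear hmain hfin hcount hcountpp
    generalize Wl a (a i₀) ks = L at hWpos
    induction L with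
    | nil => rfl
    | cons w L ih =>
      have h1 := ih (fun x hx => hWpos x (List.mem_cons_of_mem _ hx))
      have h2 := hWpos w List.mem_cons_self
      simp only [List.map_cons, List.sum_cons, List.length_cons]
      omega
  rw [e1, e2] at hmain
  have e4 : ∑ i, (a i - 1) = ∑ i ∈ I, (a i - 1) + ∑ i ∈ univ \ I, (a i - 1) := by
    rw [add_comm, Finset.sum_sdiff (Finset.subset_univ I)]
  have e5 : ∑ i ∈ I, (a i - 1) + I.card = ∑ i ∈ I, a i := by
    rw [Finset.card_eq_sum_ones, ← Finset.sum_add_distrib]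
    exact Finset.sum_congr rfl fun i _ => by have := S.ha i; omega
  have e6 := hsumks a
  have e7 : 1 + ks.length = I.card := by
    have h1 := hsumks (fun _ => 1)
    rw [← Finset.card_eq_sum_ones] at h1
    rw [← h1]
    simp
  obtain ⟨s, hs, hse⟩ := hfin (e : ℤ) (by rw [hG1]; exact one_dvd _) (by
    have : (Wl a (a i₀) ks).sum + 1 ≤ e + a i₀ + (ks.map a).sum := by omega
    have h' : ((Wl a (a i₀) ks).sum : ℤ) + 1 ≤ e + a i₀ + ((ks.map a).sum : ℕ) := by
      exact_mod_cast this
    linarith)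
  have : s = e := by exact_mod_cast hse
  rwa [this] at hs

end Pool.Agent.V5helper12.FJ
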