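import Pool.Agent.V5helper12.FJ.Arith1
import Pool.Agent.R920.WC.Min

/-!
# The arithmetic of weighted complete intersections: auxiliary statements
-/

set_option autoImplicit false
set_option linter.unusedSectionVars false

namespace Pool.Agent.V5helper12.FJ

open Finset Pool.Agent.R920.WC

variable {ι κ : Type*} [Fintype ι] [DecidableEq ι] [Fintype κ] [DecidableEq κ]

/-- residues of the elements of a semigroup -/
theorem exists_residue (a : ι → ℕ) (C : Finset ι) {A : ℕ} (hA : 0 < A) (n : ℤ)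
    (hn : ((C.gcd a : ℕ) : ℤ) ∣ n) : ∃ m : ι → ℕ, (A : ℤ) ∣ n - ∑ k ∈ C, (m k : ℤ) * a k := by
  classical
  induction C using Finset.induction_on generalizing n with
  | empty =>
    rw [Finset.gcd_empty, Nat.cast_zero, zero_dvd_iff] at hn
    exact ⟨0, by rw [hn]; simp⟩
  | insert k C hk ih =>
    rw [Finset.gcd_insert] at hn
    obtain ⟨t, ht⟩ := hn
    have hbez : ((GCDMonoid.gcd (a k) (C.gcd a) : ℕ) : ℤ) =
        a k * Nat.gcdA (a k) (C.gcd a) + (C.gcd a : ℕ) * Nat.gcdB (a k) (C.gcd a) :=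
      Nat.gcd_eq_gcd_ab _ _
    obtain ⟨m, hm⟩ := ih ((C.gcd a : ℕ) * (Nat.gcdB (a k) (C.gcd a) * t)) (Dvd.intro _ rfl)
    have hA' : (0 : ℤ) < A := by exact_mod_cast hA
    set u : ℤ := (Nat.gcdA (a k) (C.gcd a) * t) % (A : ℤ) with hu
    have hu1 : 0 ≤ u := Int.emod_nonneg _ hA'.ne'
    refine ⟨fun x => if x = k then u.toNat else m x, ?_⟩
    rw [Finset.sum_insert hk]
    simp only [if_true]
    rw [Int.toNat_of_nonneg hu1]
    have h1 : ∑ x ∈ C, ((if x = k then u.toNat else m x : ℕ) : ℤ) * (a x : ℤ) =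
        ∑ x ∈ C, (m x : ℤ) * a x := by
      refine Finset.sum_congr rfl fun x hx => ?_
      have : x ≠ k := fun h => hk (h ▸ hx)
      rw [if_neg this]
    rw [h1]
    obtain ⟨v, hv⟩ := hm
    have h2 := Int.emod_add_mul_ediv (Nat.gcdA (a k) (C.gcd a) * t) (A : ℤ)
    rw [← hu] at h2
    refine ⟨v + (Nat.gcdA (a k) (C.gcd a) * t) / (A : ℤ) * a k, ?_⟩
    rw [ht, hbez]
    have h3 : (a k : ℤ) * (u + A * (Nat.gcdA (a k) (C.gcd a) * t / A)) =
        a k * (Nat.gcdA (a k) (C.gcd a) * t) := by rw [h2]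
    linear_combination hv - h3

/-- the threshold of a set with relations -/
theorem Th_of_rel {a ℓ : ι → ℕ} {C I : Finset ι} (hCI : C ⊆ I) (ha : ∀ i, 0 < a i)
    {M : ι → ι → ℕ} (hM : ∀ i ∈ C, ∑ k ∈ C, M i k * a k = ℓ i * a i)
    (hmin : ∀ U ⊆ C, U.Nonempty → U ≠ C → ∃ i ∈ U, ∃ k ∈ C, k ∉ U ∧ M i k ≠ 0)
    {i₀ : ι} (hi₀ : i₀ ∈ C) :
    Th (sg a I) (C.gcd a) (∑ i ∈ C.erase i₀, ((ℓ i : ℤ) - 1) * a i - a i₀ + 1) := by
  classical
  intro n hn hB
  obtain ⟨m₀, hm₀⟩ := exists_residue a C (ha i₀) n hn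
  obtain ⟨m, hm, hlt⟩ := exists_reduced (fun i _ => ha i) hM hmin hi₀ m₀
  have h1 : (m i₀ : ℤ) * a i₀ + ∑ k ∈ C.erase i₀, (m k : ℤ) * a k = ∑ k ∈ C, (m₀ k : ℤ) * a k := by
    rw [Finset.add_sum_erase C (fun k => (m k : ℤ) * a k) hi₀]
    exact_mod_cast hm
  have h2 : ∑ k ∈ C.erase i₀, (m k : ℤ) * a k ≤ ∑ i ∈ C.erase i₀, ((ℓ i : ℤ) - 1) * a i := by
    refine Finset.sum_le_sum fun i hi => ?_
    have h3 := hlt i (Finset.mem_of_mem_erase hi) (Finset.ne_of_mem_erase hi)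
    have h4 : (m i : ℤ) ≤ ℓ i - 1 := by omega
    have h5 : (0 : ℤ) ≤ a i := by positivity
    exact mul_le_mul_of_nonneg_right h4 h5
  have h0 : (0 : ℤ) < a i₀ := by exact_mod_cast ha i₀
  obtain ⟨v, hv⟩ := hm₀
  -- n - s' is a multiple of `a i₀`
  have h6 : n - ∑ k ∈ C.erase i₀, (m k : ℤ) * a k = a i₀ * (v + m i₀) := by
    linear_combination hv - h1
  have h7 : 0 ≤ v + m i₀ := by
    by_contra hcon
    push Not at hcon
    have h8 : v + m i₀ ≤ -1 := by omega
    have h9 : (a i₀ : ℤ) * (v + m i₀) ≤ a i₀ * (-1) := mul_le_mul_of_nonneg_left h8 h0.le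
    linarith
  refine ⟨∑ k ∈ C.erase i₀, m k * a k + (v + m i₀).toNat * a i₀, ?_, ?_⟩
  · refine (sg a I).add_mem ?_ (mul_mem_sg (hCI hi₀) _)
    exact (sg a I).sum_mem fun k hk => mul_mem_sg (hCI (Finset.mem_of_mem_erase hk)) _
  · push_cast
    rw [Int.toNat_of_nonneg h7]
    linear_combination -h6

/-- a relation between two weights -/
theorem pair_rel {a ℓ : ι → ℕ} {i k : ι} (hik : i ≠ k) (hi : 0 < a i) (hk : 0 < a k)
    (h : Nat.lcm (a i) (a k) ≤ ℓ i * a i) : ∃ m, Rel a ℓ {i, k} i m := by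
  obtain ⟨s, hs⟩ := Nat.dvd_lcm_left (a i) (a k)
  obtain ⟨t, ht⟩ := Nat.dvd_lcm_right (a i) (a k)
  have hL : 0 < Nat.lcm (a i) (a k) := Nat.lcm_pos hi hk
  refine ⟨fun x => if x = i then ℓ i - s else t, ?_, k, by simp, hik.symm, ?_⟩
  · rw [Finset.sum_pair hik]
    simp only [if_true, if_neg hik.symm]
    have h1 : s ≤ ℓ i := by
      rw [hs, mul_comm] at h
      exact Nat.le_of_mul_le_mul_right h hi
    have h2 : (ℓ i - s) * a i + s * a i = ℓ i * a i := by
      rw [← add_mul, Nat.sub_add_cancel h1]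
    have h3 : t * a k = s * a i := by rw [mul_comm t, ← ht, hs, mul_comm]
    omega
  · show (if k = i then ℓ i - s else t) ≠ 0
    rw [if_neg hik.symm]
    rintro rfl
    rw [mul_zero] at ht
    omega

/-- the part of `a` prime to the common part -/
theorem pow_dvd_of_dvd_div {a M p : ℕ} (ha : 0 < a) (h : p ∣ a / Nat.gcd a M) (r : ℕ)
    (hr : p ^ r ∣ M) : p ^ (r + 1) ∣ a := by
  have hg : 0 < Nat.gcd a M := Nat.gcd_pos_of_pos_left _ ha
  have ha' : a = Nat.gcd a M * (a / Nat.gcd a M) := (Nat.mul_div_cancel' (Nat.gcd_dvd_left _ _)).symm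
  induction r with
  | zero =>
    rw [zero_add, pow_one, ha']
    exact h.trans (Dvd.intro_left _ rfl)
  | succ r ih =>
    have h1 := ih ((pow_dvd_pow p (Nat.le_succ r)).trans hr)
    have h2 : p ^ (r + 1) ∣ Nat.gcd a M := Nat.dvd_gcd h1 hr
    rw [ha', pow_succ p (r + 1)]
    exact Nat.mul_dvd_mul h2 h

theorem no_pow {p M : ℕ} (hp : 1 < p) (hM : 0 < M) (h : ∀ r, p ^ r ∣ M → p ^ (r + 1) ∣ M) :
    False := by
  have h1 : ∀ r, p ^ r ∣ M := by
    intro r
    induction r with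
    | zero => rw [pow_zero]; exact one_dvd _
    | succ r ih => exact h r ih
  exact absurd (Nat.le_of_dvd hM (h1 M)) (not_le.2 (Nat.lt_pow_self hp))

theorem coprime_parts {x y M : ℕ} (hx : 0 < x) (hy : 0 < y) (hM : 0 < M)
    (h : Nat.gcd x y ∣ M) : Nat.Coprime (x / Nat.gcd x M) (y / Nat.gcd y M) := by
  rw [Nat.coprime_iff_gcd_eq_one]
  by_contra hne
  obtain ⟨p, hp, hpd⟩ := Nat.exists_prime_and_dvd hne
  refine no_pow hp.one_lt hM fun r hr => ?_
  have h1 := pow_dvd_of_dvd_div hx (hpd.trans (Nat.gcd_dvd_left _ _)) r hr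
  have h2 := pow_dvd_of_dvd_div hy (hpd.trans (Nat.gcd_dvd_right _ _)) r hr
  exact (Nat.dvd_gcd h1 h2).trans h

/-- a common divisor of `M b λ` and of a weight whose common divisor with `x` divides `M` -/
theorem dvd_of_dvd_mul {x y M z s : ℕ} (hx : 0 < x) (h : Nat.gcd x y ∣ M)
    (hzy : z ∣ y) (hz : z ∣ M * (x / Nat.gcd x M) * s) : z ∣ M * s := by
  rw [Nat.dvd_iff_prime_pow_dvd_dvd]
  intro p r hp hpr
  by_cases h1 : p ^ r ∣ M
  · exact h1.trans (Dvd.intro _ rfl)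
  · have h2 : ¬ p ∣ x / Nat.gcd x M := by
      intro h3
      have h4 : ∀ t, t ≤ r → p ^ t ∣ M := by
        intro t
        induction t with
        | zero => intro _; rw [pow_zero]; exact one_dvd _
        | succ t ih =>
          intro ht
          have h5 := pow_dvd_of_dvd_div hx h3 t (ih (by omega))
          exact (Nat.dvd_gcd h5 ((pow_dvd_pow p ht).trans (hpr.trans hzy))).trans h
      exact h1 (h4 r le_rfl)
    have h3 : Nat.Coprime (p ^ r) (x / Nat.gcd x M) :=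
      Nat.Coprime.pow_left _ ((Nat.Prime.coprime_iff_not_dvd hp).2 h2)
    have h4 : p ^ r ∣ (x / Nat.gcd x M) * (M * s) := by
      have : M * (x / Nat.gcd x M) * s = (x / Nat.gcd x M) * (M * s) := by ring
      rw [← this]
      exact hpr.trans hz
    exact h3.dvd_of_dvd_mul_left h4

theorem sub_gcd_le {w M b : ℕ} (hM : 0 < M) (hw : 0 < w) (hb : 0 < b) (h : w ∣ M * b) :
    w - Nat.gcd w M ≤ M * (b - 1) := by
  have hg : 0 < Nat.gcd w M := Nat.gcd_pos_of_pos_left _ hw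
  have hw' : w = Nat.gcd w M * (w / Nat.gcd w M) := (Nat.mul_div_cancel' (Nat.gcd_dvd_left _ _)).symm
  have hM' : M = Nat.gcd w M * (M / Nat.gcd w M) := (Nat.mul_div_cancel' (Nat.gcd_dvd_right _ _)).symm
  have hcop : Nat.Coprime (w / Nat.gcd w M) (M / Nat.gcd w M) := Nat.coprime_div_gcd_div_gcd hg
  set β := w / Nat.gcd w M with hβ
  have h1 : β ∣ b := by
    have h2 : Nat.gcd w M * β ∣ Nat.gcd w M * ((M / Nat.gcd w M) * b) := by
      rw [← hw', ← mul_assoc, ← hM']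
      exact h
    exact hcop.dvd_of_dvd_mul_left (Nat.dvd_of_mul_dvd_mul_left hg h2)
  have h2 : β ≤ b := Nat.le_of_dvd hb h1
  calc w - Nat.gcd w M = Nat.gcd w M * β - Nat.gcd w M * 1 := by rw [← hw', mul_one]
    _ = Nat.gcd w M * (β - 1) := by rw [Nat.mul_sub]
    _ ≤ M * (b - 1) := Nat.mul_le_mul (Nat.gcd_le_right _ hM) (Nat.sub_le_sub_right h2 1)

theorem sum_Wl_le {a : ι → ℕ} {M : ℕ} (hM : 0 < M) (ha : ∀ i, 0 < a i) (ks : List ι) {G : ℕ}
    (hG : G ∣ M) : ((Wl a G ks).map fun w => w - Nat.gcd w M).sum ≤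
      (ks.map fun k => M * (a k / Nat.gcd (a k) M - 1)).sum := by
  induction ks generalizing G with
  | nil => simp [Wl]
  | cons k ks ih =>
    have h1 := ih (G := Nat.gcd G (a k)) ((Nat.gcd_dvd_left _ _).trans hG)
    have hg : 0 < Nat.gcd (a k) M := Nat.gcd_pos_of_pos_left _ (ha k)
    have ha' : a k = Nat.gcd (a k) M * (a k / Nat.gcd (a k) M) :=
      (Nat.mul_div_cancel' (Nat.gcd_dvd_left _ _)).symm
    have hb : 0 < a k / Nat.gcd (a k) M :=
      Nat.div_pos (Nat.gcd_le_left _ (ha k)) hg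
    have h2 := sub_gcd_le (w := Nat.lcm G (a k)) hM
      (Nat.lcm_pos (Nat.pos_of_dvd_of_pos hG hM) (ha k)) hb (by
        refine Nat.lcm_dvd (hG.trans (Dvd.intro _ rfl)) ?_
        nth_rewrite 1 [ha']
        exact Nat.mul_dvd_mul (Nat.gcd_dvd_right _ _) dvd_rfl)
    simp only [Wl, List.map_cons, List.sum_cons]
    omega

theorem countP_gcd (M z : ℕ) (W : Multiset ℕ) :
    (W.map fun w => Nat.gcd w M).countP (fun w => z ∣ w) =
      if z ∣ M then W.countP (fun w => z ∣ w) else 0 := by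
  induction W using Multiset.induction_on with
  | empty => simp
  | cons w W ih =>
    rw [Multiset.map_cons, Multiset.countP_cons, Multiset.countP_cons, ih]
    by_cases h1 : z ∣ M
    · rw [if_pos h1, if_pos h1]
      by_cases h2 : z ∣ w
      · rw [if_pos h2, if_pos (Nat.dvd_gcd h2 h1)]
      · rw [if_neg h2, if_neg (fun h => h2 (h.trans (Nat.gcd_dvd_left _ _)))]
    · rw [if_neg h1, if_neg h1, if_neg (fun h => h1 (h.trans (Nat.gcd_dvd_right _ _)))]

theorem sum_sub_gcd (M : ℕ) (W : Multiset ℕ) (hW : ∀ w ∈ W, 0 < w) :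
    (W.map fun w => w - Nat.gcd w M).sum + (W.map fun w => Nat.gcd w M).sum = W.sum := by
  induction W using Multiset.induction_on with
  | empty => simp
  | cons w W ih =>
    have h1 := ih fun x hx => hW x (Multiset.mem_cons_of_mem hx)
    have h2 : Nat.gcd w M ≤ w := Nat.gcd_le_left _ (hW w (Multiset.mem_cons_self _ _))
    simp only [Multiset.map_cons, Multiset.sum_cons]
    omega

theorem sum_sub_one (W : Multiset ℕ) (hW : ∀ w ∈ W, 0 < w) :
    (W.map fun w => w - 1).sum + Multiset.card W = W.sum := by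
  induction W using Multiset.induction_on with
  | empty => simp
  | cons w W ih =>
    have h1 := ih fun x hx => hW x (Multiset.mem_cons_of_mem hx)
    have h2 := hW w (Multiset.mem_cons_self _ _)
    simp only [Multiset.map_cons, Multiset.sum_cons, Multiset.card_cons]
    omega

end Pool.Agent.V5helper12.FJ
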