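import Pool.Agent.V5helper12.FJ.Arith2

/-!
# The arithmetic of weighted complete intersections: weights without common degrees
-/

set_option autoImplicit false
set_option linter.unusedSectionVars false

namespace Pool.Agent.V5helper12.FJ

open Finset Pool.Agent.R920.WC

variable {ι κ : Type*} [Fintype ι] [DecidableEq ι] [Fintype κ] [DecidableEq κ]

/-- the multiples of coprime numbers -/
theorem sum_lam_le {C : Finset ι} {b lam : ι → ℕ} (hb : ∀ i ∈ C, 2 ≤ b i)
    {Λ : ℕ} (hx : ∀ i ∈ C, b i * lam i ≤ Λ)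
    (hdis : 2 < C.card → ∀ i ∈ C, ∀ k ∈ C, i ≠ k → Nat.Coprime (b i) (b k) ∧
      ¬ (b i * b k ≤ b i * lam i ∧ b i * b k ≤ b k * lam k)) : ∑ i ∈ C, lam i ≤ Λ := by
  classical
  by_cases hC : 2 < C.card
  · have hdis' := hdis hC
    set T : ι → Finset ℕ := fun i => (Icc 1 (lam i)).image fun s => b i * s with hT
    have hcard : ∀ i ∈ C, (T i).card = lam i := by
      intro i hi
      rw [hT]
      simp only
      rw [Finset.card_image_of_injective _ (fun s t h =>
        Nat.eq_of_mul_eq_mul_left (by have := hb i hi; omega) h), Nat.card_Icc]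
      omega
    have hsub : C.biUnion T ⊆ Icc 1 Λ := by
      intro x hx'
      obtain ⟨i, hi, hxi⟩ := mem_biUnion.1 hx'
      obtain ⟨s, hs, rfl⟩ := mem_image.1 hxi
      rw [mem_Icc] at hs ⊢
      have h2 := hb i hi
      exact ⟨Nat.mul_pos (by omega) hs.1, (Nat.mul_le_mul_left _ hs.2).trans (hx i hi)⟩
    have hpd : (C : Set ι).PairwiseDisjoint T := by
      intro i hi k hk hik
      rw [Function.onFun, Finset.disjoint_left]
      intro x hxi hxk
      obtain ⟨s, hs, rfl⟩ := mem_image.1 hxi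
      obtain ⟨t, ht, hts⟩ := mem_image.1 hxk
      rw [mem_Icc] at hs ht
      obtain ⟨hcop, hnot⟩ := hdis' i hi k hk hik
      have h1 : b k ∣ b i * s := ⟨t, hts.symm⟩
      have h2 : b i * b k ∣ b i * s := hcop.mul_dvd_of_dvd_of_dvd (Dvd.intro _ rfl) h1
      have hbi := hb i hi
      have h3 : b i * b k ≤ b i * s := Nat.le_of_dvd (Nat.mul_pos (by omega) hs.1) h2
      refine hnot ⟨h3.trans (Nat.mul_le_mul_left _ hs.2), ?_⟩
      have hts' : b k * t = b i * s := hts
      rw [← hts'] at h3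
      exact h3.trans (Nat.mul_le_mul_left _ ht.2)
    calc ∑ i ∈ C, lam i = ∑ i ∈ C, (T i).card := Finset.sum_congr rfl fun i hi => (hcard i hi).symm
      _ = (C.biUnion T).card := (Finset.card_biUnion hpd).symm
      _ ≤ (Icc 1 Λ).card := card_le_card hsub
      _ = Λ := by rw [Nat.card_Icc]; omega
  · have h1 : 2 * ∑ i ∈ C, lam i ≤ C.card * Λ := by
      rw [Finset.mul_sum, ← smul_eq_mul, ← Finset.sum_const]
      refine Finset.sum_le_sum fun i hi => ?_
      exact (Nat.mul_le_mul_right _ (hb i hi)).trans (hx i hi)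
    have h2 : C.card * Λ ≤ 2 * Λ := Nat.mul_le_mul_right _ (by omega)
    omega

variable {a : ι → ℕ} {d : κ → ℕ} {I : Finset ι}

theorem mem_sg_large_of_disjoint (S : Sys a d I)
    (hdis : ∀ i ∈ I, ∀ k ∈ I, i ≠ k → ∀ j, a i ∣ d j → ¬ a k ∣ d j) {e : ℕ}
    (he : ∑ j, (d j - 1) ≤ e + ∑ i, (a i - 1)) : e ∈ sg a I := by
  classical
  obtain ⟨i', hi'⟩ := S.hI
  obtain ⟨j', -⟩ := S.h3 i' hi'
  have : Nonempty κ := ⟨j'⟩
  have h3 := S.h3
  choose! J hJ using h3
  -- the common part
  set M : ℕ := univ.gcd d with hMdef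
  have hMd : ∀ j, M ∣ d j := fun j => Finset.gcd_dvd (mem_univ j)
  have hM : 0 < M := Nat.pos_of_dvd_of_pos (hMd j') (S.hd j')
  have hgM : ∀ i ∈ I, ∀ k, k ≠ i → Nat.gcd (a i) (a k) ∣ M := fun i hi k hk =>
    Finset.dvd_gcd fun j _ => S.h2 i hi k hk j
  have hJinj : ∀ i ∈ I, ∀ k ∈ I, J i = J k → i = k := by
    intro i hi k hk h
    by_contra hne
    exact hdis i hi k hk hne (J i) (hJ i hi).1 (h ▸ (hJ k hk).1)
  -- the parts prime to `M`
  set b : ι → ℕ := fun i => a i / Nat.gcd (a i) M with hb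
  have hg : ∀ i, 0 < Nat.gcd (a i) M := fun i => Nat.gcd_pos_of_pos_left _ (S.ha i)
  have hab : ∀ i, a i = Nat.gcd (a i) M * b i := fun i =>
    (Nat.mul_div_cancel' (Nat.gcd_dvd_left _ _)).symm
  have hb1 : ∀ i, 0 < b i := fun i => Nat.div_pos (Nat.gcd_le_left _ (S.ha i)) (hg i)
  have haMb : ∀ i, a i ∣ M * b i := by
    intro i
    have h1 := Nat.mul_dvd_mul (Nat.gcd_dvd_right (a i) M) (dvd_refl (b i))
    rwa [← hab i] at h1
  have hMb : ∀ i ∈ I, M * b i ∣ d (J i) := by
    intro i hi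
    have h1 : Nat.lcm (a i) M ∣ d (J i) := Nat.lcm_dvd (hJ i hi).1 (hMd _)
    have h2 : Nat.lcm (a i) M = M * b i := by
      rw [Nat.lcm, mul_comm (a i) M, Nat.mul_div_assoc _ (Nat.gcd_dvd_left _ _)]
    rwa [h2] at h1
  have hb2 : ∀ i ∈ I, 2 ≤ b i := by
    intro i hi
    by_contra hlt
    have hbi : b i = 1 := by
      have := hb1 i
      omega
    have haM : a i ∣ M := by
      have := haMb i
      rwa [hbi, mul_one] at this
    -- another element of `I`
    obtain ⟨-, m, -, k, hk, hki, -⟩ := hJ i hi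
    exact hdis i hi k hk hki.symm (J k) (haM.trans (hMd _)) (hJ k hk).1
  set lam : ι → ℕ := fun i => d (J i) / (M * b i) with hlam
  have hdlam : ∀ i ∈ I, d (J i) = M * b i * lam i := fun i hi =>
    (Nat.mul_div_cancel' (hMb i hi)).symm
  have hlam1 : ∀ i ∈ I, 0 < lam i := by
    intro i hi
    rcases Nat.eq_zero_or_pos (lam i) with h0 | h0
    · have h1 := hdlam i hi
      rw [h0, mul_zero] at h1
      have := S.hd (J i)
      omega
    · exact h0
  set ℓ : ι → ℕ := fun i => d (J i) / a i with hℓ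
  have hℓa : ∀ i ∈ I, ℓ i * a i = d (J i) := fun i hi => Nat.div_mul_cancel (hJ i hi).1
  -- a minimal closed set
  have hclosed : Closed a ℓ I := ⟨⟨i', hi'⟩, fun i hi => by
    obtain ⟨m, hm, hk⟩ := (hJ i hi).2
    exact ⟨m, by rw [hm, hℓa i hi], hk⟩⟩
  obtain ⟨C, hCI, hC⟩ := exists_minimal hclosed
  choose! Mx hMx using hC.1.2
  obtain ⟨i₀, hi₀, hmax⟩ := Finset.exists_max_image C (fun i => d (J i)) hC.1.1
  -- the multiples
  have hxle : ∀ i ∈ C, b i * lam i ≤ b i₀ * lam i₀ := by
    intro i hi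
    have h1 : d (J i) ≤ d (J i₀) := hmax i hi
    rw [hdlam i (hCI hi), hdlam i₀ (hCI hi₀), mul_assoc, mul_assoc] at h1
    exact Nat.le_of_mul_le_mul_left h1 hM
  have hsumlam : ∑ i ∈ C, lam i ≤ b i₀ * lam i₀ := by
    refine sum_lam_le (fun i hi => hb2 i (hCI hi)) hxle fun hcard i hi k hk hik => ?_
    refine ⟨coprime_parts (S.ha i) (S.ha k) hM (hgM i (hCI hi) k hik.symm), ?_⟩
    rintro ⟨h1, h2⟩
    have hlcm : Nat.lcm (a i) (a k) ≤ M * (b i * b k) := by
      refine Nat.le_of_dvd (Nat.mul_pos hM (Nat.mul_pos (hb1 i) (hb1 k))) (Nat.lcm_dvd ?_ ?_)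
      · exact (haMb i).trans ⟨b k, by ring⟩
      · exact (haMb k).trans ⟨b i, by ring⟩
    have hle : ∀ x ∈ C, b i * b k ≤ b x * lam x → Nat.lcm (a i) (a k) ≤ ℓ x * a x := by
      intro x hx hle
      rw [hℓa x (hCI hx), hdlam x (hCI hx), mul_assoc]
      exact hlcm.trans (Nat.mul_le_mul_left _ hle)
    have hcl : Closed a ℓ {i, k} := by
      refine ⟨⟨i, by simp⟩, fun x hx => ?_⟩
      rcases Finset.mem_insert.1 hx with rfl | hx
      · exact pair_rel hik (S.ha _) (S.ha _) (hle _ hi h1)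
      · rw [Finset.mem_singleton] at hx
        subst hx
        rw [Finset.pair_comm]
        exact pair_rel hik.symm (S.ha _) (S.ha _) (by rw [Nat.lcm_comm]; exact hle _ hk h2)
    have hsub : ({i, k} : Finset ι) ⊆ C := by
      intro x hx
      rcases Finset.mem_insert.1 hx with rfl | hx
      · exact hi
      · rw [Finset.mem_singleton] at hx
        exact hx ▸ hk
    have h5 := hC.2 _ hsub hcl
    rw [← h5] at hcard
    have := Finset.card_le_two (a := i) (b := k)
    omega
  -- the threshold for `C`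
  have hstart := Th_of_rel (I := I) hCI S.ha (fun i hi => (hMx i hi).1) (hC.not_closed hMx) hi₀
  -- the chain
  set ks : List ι := (I \ C).toList with hks
  have hksI : ∀ k ∈ ks, k ∈ I := fun k hk => (Finset.mem_sdiff.1 (Finset.mem_toList.1 hk)).1
  have hG0 : 0 < C.gcd a := Nat.pos_of_dvd_of_pos (Finset.gcd_dvd hi₀) (S.ha _)
  have hfin := hstart.chain (a := a) ks (fun k hk => mem_sg_of_mem (hksI k hk)) (fun k _ => S.ha k) hG0
  have hG1 : Gl a (C.gcd a) ks = 1 := by
    have : Gl a (C.gcd a) ks ∣ I.gcd a := by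
      refine Finset.dvd_gcd fun k hk => ?_
      by_cases hkC : k ∈ C
      · exact (Gl_dvd_left _ _ _).trans (Finset.gcd_dvd hkC)
      · exact Gl_dvd_right _ _ _ k (Finset.mem_toList.2 (Finset.mem_sdiff.2 ⟨hk, hkC⟩))
    rw [S.hIg] at this
    exact Nat.dvd_one.1 this
  have hGM : C.gcd a ∣ M := by
    obtain ⟨-, k, hk, hki, -⟩ := hMx i₀ hi₀
    exact (Nat.dvd_gcd (Finset.gcd_dvd hi₀) (Finset.gcd_dvd hk)).trans
      (hgM i₀ (hCI hi₀) k hki)
  -- sums over `ks`
  have hsumks : ∀ g : ι → ℕ, (ks.map g).sum = ∑ i ∈ I \ C, g i := fun g => by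
    rw [hks, Finset.sum_map_toList]
  set W : Multiset ℕ := (Wl a (C.gcd a) ks : Multiset ℕ) + (univ \ I).val.map a with hW
  have hWlpos : ∀ w ∈ Wl a (C.gcd a) ks, 0 < w := by
    intro w hw
    obtain ⟨k, hk, G', hG', rfl⟩ := mem_Wl hw
    exact Nat.lcm_pos (Nat.pos_of_dvd_of_pos hG' hG0) (S.ha _)
  have hWpos : ∀ w ∈ W, 0 < w := by
    intro w hw
    rcases Multiset.mem_add.1 hw with h | h
    · exact hWlpos w h
    · obtain ⟨i, -, rfl⟩ := Multiset.mem_map.1 h
      exact S.ha i
  have hKcount : ∀ z, ((univ \ I).val.map a).countP (fun w => z ∣ w) =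
      ((univ \ I).filter fun i => z ∣ a i).card := by
    intro z
    rw [Multiset.countP_map]
    rfl
  -- (β)
  have hβ0 : ∀ z, 1 < z → W.countP (fun w => z ∣ w) ≤ Fintype.card κ := by
    intro z hz
    obtain ⟨p, hp, hpz⟩ := Nat.exists_prime_and_dvd (by omega : z ≠ 1)
    refine (countP_mono (z := p ^ 1) (by rw [pow_one]; exact hpz) W).trans ?_
    rw [hW, Multiset.countP_add, hKcount, Multiset.coe_countP]
    have h1 := countP_Wl (r := 1) hp ks (fun k _ => S.ha k) hG0
    rw [pow_one] at h1 ⊢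
    have h2 : (ks.countP fun k => p ∣ a k) = ((I \ C).filter fun i => p ∣ a i).card := by
      have h3 := hsumks (fun i => if p ∣ a i then 1 else 0)
      rw [← Finset.card_filter] at h3
      rw [← h3, List.countP_eq_length_filter]
      clear_value ks
      clear * -
      induction ks with
      | nil => simp
      | cons k ks ih =>
        rw [List.map_cons, List.sum_cons, ← ih, List.filter_cons]
        by_cases h : p ∣ a k
        · simp [h, add_comm]
        · simp [h]
    have h4 : (if p ∣ C.gcd a then 1 else 0) ≤ (C.filter fun i => p ∣ a i).card := by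
      split_ifs with h
      · exact card_pos.2 ⟨i₀, mem_filter.2 ⟨hi₀, h.trans (Finset.gcd_dvd hi₀)⟩⟩
      · exact Nat.zero_le _
    have h5 : (C.filter fun i => p ∣ a i).card + ((I \ C).filter fun i => p ∣ a i).card +
        ((univ \ I).filter fun i => p ∣ a i).card = (univ.filter fun i => p ∣ a i).card := by
      rw [← Finset.card_union_of_disjoint (Finset.disjoint_filter_filter Finset.disjoint_sdiff),
        ← Finset.filter_union, Finset.union_sdiff_of_subset hCI,
        ← Finset.card_union_of_disjoint (Finset.disjoint_filter_filter Finset.disjoint_sdiff),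
        ← Finset.filter_union, Finset.union_sdiff_of_subset (Finset.subset_univ I)]
    have h6 := S.h1 p hp.one_lt
    have h7 : (univ.filter fun j => p ∣ d j).card ≤ Fintype.card κ := card_le_univ _
    omega
  have hβ : (W.map fun w => Nat.gcd w M).sum ≤ Fintype.card κ * (M - 1) + Multiset.card W := by
    have h1 := sum_le_of_count (M := 1) (W.map fun w => Nat.gcd w M)
      (Multiset.replicate (Fintype.card κ) M) (by
        intro w hw
        obtain ⟨x, hx, rfl⟩ := Multiset.mem_map.1 hw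
        exact Nat.gcd_pos_of_pos_left _ (hWpos x hx)) (by
        intro w hw
        rw [Multiset.eq_of_mem_replicate hw]
        exact hM) (by
        intro z hz _
        rw [countP_gcd]
        split_ifs with h
        · refine (hβ0 z hz).trans ?_
          rw [Multiset.countP_eq_card_filter, Multiset.filter_eq_self.2, Multiset.card_replicate]
          intro x hx
          rw [Multiset.eq_of_mem_replicate hx]
          exact h
        · exact Nat.zero_le _)
    simp only [Nat.gcd_one_right] at h1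
    rw [Multiset.map_replicate, Multiset.sum_replicate, smul_eq_mul] at h1
    have h2 := sum_sub_one (W.map fun w => Nat.gcd w M) (by
        intro w hw
        obtain ⟨x, hx, rfl⟩ := Multiset.mem_map.1 hw
        exact Nat.gcd_pos_of_pos_left _ (hWpos x hx))
    rw [Multiset.card_map] at h2
    omega
  -- (γ)
  set D' : Multiset ℕ := I.val.map (fun i => M * lam i) + (univ \ I.image J).val.map d with hD'
  have hγ0 : ∀ z, 1 < z → ¬ z ∣ M → ((univ \ I).val.map a).countP (fun w => z ∣ w) ≤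
      D'.countP (fun w => z ∣ w) := by
    intro z hz hzM
    rw [hKcount]
    by_cases hex : ((univ \ I).filter fun i => z ∣ a i).Nonempty
    · obtain ⟨l, hl⟩ := hex
      obtain ⟨hlI, hzl⟩ := mem_filter.1 hl
      have hlI' : l ∉ I := (mem_sdiff.1 hlI).2
      have h1 : ((univ \ I).filter fun i => z ∣ a i).card ≤ (univ.filter fun j => z ∣ d j).card :=
        le_trans (card_le_card fun i hi => mem_filter.2 ⟨mem_univ _, (mem_filter.1 hi).2⟩)
          (S.h1 z hz)
      refine h1.trans ?_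
      rw [hD', Multiset.countP_add, Multiset.countP_map, Multiset.countP_map]
      have h2 : (univ.filter fun j => z ∣ d j).card =
          ((I.image J).filter fun j => z ∣ d j).card +
            ((univ \ I.image J).filter fun j => z ∣ d j).card := by
        rw [← Finset.card_union_of_disjoint (Finset.disjoint_filter_filter Finset.disjoint_sdiff),
          ← Finset.filter_union, Finset.union_sdiff_of_subset (Finset.subset_univ _)]
      have h3 : ((I.image J).filter fun j => z ∣ d j).card ≤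
          (I.filter fun i => z ∣ M * lam i).card := by
        rw [Finset.filter_image]
        refine Finset.card_image_le.trans (card_le_card fun i hi => ?_)
        obtain ⟨hi1, hi2⟩ := mem_filter.1 hi
        refine mem_filter.2 ⟨hi1, ?_⟩
        refine dvd_of_dvd_mul (x := a i) (y := a l) (S.ha i)
          (hgM i hi1 l fun h => hlI' (h ▸ hi1)) hzl ?_
        rw [hdlam i hi1] at hi2
        exact hi2
      rw [h2]
      exact Nat.add_le_add h3 le_rfl
    · rw [Finset.not_nonempty_iff_eq_empty] at hex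
      rw [hex, Finset.card_empty]
      exact Nat.zero_le _
  have hγ := sum_le_of_count (M := M) ((univ \ I).val.map a) D' (by
      intro w hw
      obtain ⟨i, -, rfl⟩ := Multiset.mem_map.1 hw
      exact S.ha i) (by
      intro w hw
      rcases Multiset.mem_add.1 hw with h | h
      · obtain ⟨i, hi, rfl⟩ := Multiset.mem_map.1 h
        exact Nat.mul_pos hM (hlam1 i hi)
      · obtain ⟨j, -, rfl⟩ := Multiset.mem_map.1 h
        exact S.hd j) hγ0
  have hD'sum : (D'.map fun w => w - Nat.gcd w M).sum =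
      ∑ i ∈ I, (M * lam i - M) + ∑ j ∈ univ \ I.image J, (d j - M) := by
    rw [hD', Multiset.map_add, Multiset.sum_add, Multiset.map_map, Multiset.map_map]
    have e1 : (I.val.map ((fun w => w - Nat.gcd w M) ∘ fun i => M * lam i)).sum =
        ∑ i ∈ I, (M * lam i - Nat.gcd (M * lam i) M) := rfl
    have e2 : (((univ \ I.image J).val.map ((fun w => w - Nat.gcd w M) ∘ d))).sum =
        ∑ j ∈ univ \ I.image J, (d j - Nat.gcd (d j) M) := rfl
    rw [e1, e2]
    congr 1
    · refine Finset.sum_congr rfl fun i _ => ?_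
      rw [Nat.gcd_eq_right (Dvd.intro _ rfl)]
    · refine Finset.sum_congr rfl fun j _ => ?_
      rw [Nat.gcd_eq_right (hMd j)]
  rw [hD'sum] at hγ
  -- (α)
  have hα := sum_Wl_le hM S.ha ks hGM
  rw [hsumks] at hα
  -- assembling
  have hWsum := sum_sub_gcd M W hWpos
  have hsplit : (W.map fun w => w - Nat.gcd w M).sum =
      ((Wl a (C.gcd a) ks).map fun w => w - Nat.gcd w M).sum +
        (((univ \ I).val.map a).map fun w => w - Nat.gcd w M).sum := by
    rw [hW, Multiset.map_add, Multiset.sum_add]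
    rfl
  have hWs : W.sum = (Wl a (C.gcd a) ks).sum + ∑ i ∈ univ \ I, a i := by
    rw [hW, Multiset.sum_add]
    rfl
  have hWc : Multiset.card W = (I \ C).card + (univ \ I).card := by
    rw [hW, Multiset.card_add, Multiset.card_map]
    have : Multiset.card ((Wl a (C.gcd a) ks : List ℕ) : Multiset ℕ) = (I \ C).card := by
      rw [Multiset.coe_card, length_Wl, hks, Finset.length_toList]
    rw [this]
    rfl
  -- the total bound, in the natural numbers
  have hT : (Wl a (C.gcd a) ks).sum + ∑ i ∈ univ \ I, a i ≤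
      ∑ k ∈ I \ C, M * (b k - 1) + (∑ i ∈ I, (M * lam i - M) + ∑ j ∈ univ \ I.image J, (d j - M)) +
        (Fintype.card κ * (M - 1) + ((I \ C).card + (univ \ I).card)) := by
    rw [← hWs, ← hWsum, hsplit, ← hWc]
    exact Nat.add_le_add (Nat.add_le_add hα hγ) hβ
  -- in the integers
  have z1 : (((Wl a (C.gcd a) ks).sum : ℕ) : ℤ) + ∑ i ∈ univ \ I, (a i : ℤ) ≤
      ∑ k ∈ I \ C, (M : ℤ) * (b k - 1) + (∑ i ∈ I, ((M : ℤ) * lam i - M) +
        ∑ j ∈ univ \ I.image J, ((d j : ℤ) - M)) +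
        ((Fintype.card κ : ℤ) * (M - 1) + (((I \ C).card : ℤ) + ((univ \ I).card : ℤ))) := by
    have c1 : ((∑ k ∈ I \ C, M * (b k - 1) : ℕ) : ℤ) = ∑ k ∈ I \ C, (M : ℤ) * (b k - 1) := by
      push_cast
      refine Finset.sum_congr rfl fun k _ => ?_
      rw [Nat.cast_sub (hb1 k)]
      push_cast
      ring
    have c2 : ((∑ i ∈ I, (M * lam i - M) : ℕ) : ℤ) = ∑ i ∈ I, ((M : ℤ) * lam i - M) := by
      push_cast
      refine Finset.sum_congr rfl fun i hi => ?_
      rw [Nat.cast_sub (Nat.le_mul_of_pos_right _ (hlam1 i hi))]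
      push_cast
      ring
    have c3 : ((∑ j ∈ univ \ I.image J, (d j - M) : ℕ) : ℤ) =
        ∑ j ∈ univ \ I.image J, ((d j : ℤ) - M) := by
      push_cast
      refine Finset.sum_congr rfl fun j _ => ?_
      rw [Nat.cast_sub (Nat.le_of_dvd (S.hd j) (hMd j))]
    have c4 : ((Fintype.card κ * (M - 1) : ℕ) : ℤ) = (Fintype.card κ : ℤ) * (M - 1) := by
      push_cast
      rw [Nat.cast_sub hM]
      push_cast
      ring
    rw [← c1, ← c2, ← c3, ← c4]
    exact_mod_cast hT
  have z2 : ∑ j, ((d j : ℤ) - 1) ≤ e + ∑ i, ((a i : ℤ) - 1) := by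
    have c1 : ((∑ j, (d j - 1) : ℕ) : ℤ) = ∑ j, ((d j : ℤ) - 1) := by
      push_cast
      refine Finset.sum_congr rfl fun j _ => ?_
      rw [Nat.cast_sub (S.hd j)]
      push_cast
      ring
    have c2 : ((∑ i, (a i - 1) : ℕ) : ℤ) = ∑ i, ((a i : ℤ) - 1) := by
      push_cast
      refine Finset.sum_congr rfl fun i _ => ?_
      rw [Nat.cast_sub (S.ha i)]
      push_cast
      ring
    rw [← c1, ← c2]
    exact_mod_cast he
  have s1 : ∑ j, ((d j : ℤ) - 1) = ∑ i ∈ I, ((d (J i) : ℤ) - 1) +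
      ∑ j ∈ univ \ I.image J, ((d j : ℤ) - 1) := by
    rw [← Finset.sum_image (g := J) (f := fun j => (d j : ℤ) - 1) (fun i hi k hk h =>
      hJinj i hi k hk h), add_comm, Finset.sum_sdiff (Finset.subset_univ _)]
  have s2 : ∑ i, ((a i : ℤ) - 1) = ∑ i ∈ I, ((a i : ℤ) - 1) + ∑ i ∈ univ \ I, ((a i : ℤ) - 1) := by
    rw [add_comm, Finset.sum_sdiff (Finset.subset_univ I)]
  have s3 : ∀ g : ι → ℤ, ∑ i ∈ I, g i = g i₀ + ∑ i ∈ C.erase i₀, g i + ∑ i ∈ I \ C, g i := by
    intro g
    rw [Finset.add_sum_erase _ _ hi₀, add_comm, Finset.sum_sdiff hCI]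
  have s4 : ((univ \ I.image J).card : ℤ) = Fintype.card κ - I.card := by
    rw [Finset.card_univ_sdiff, Finset.card_image_of_injOn (fun i hi k hk h =>
      hJinj i hi k hk h), Nat.cast_sub]
    rw [← Finset.card_image_of_injOn (f := J) (s := I) (fun i hi k hk h => hJinj i hi k hk h)]
    exact card_le_univ _
  have s5 : (I.card : ℤ) = 1 + (C.erase i₀).card + (I \ C).card := by
    have := s3 (fun _ => 1)
    simpa using this
  -- the terms outside `C`
  have t1 : ∑ k ∈ I \ C, ((M : ℤ) * (b k - 1) + M * lam k) ≤ ∑ k ∈ I \ C, (d (J k) : ℤ) := by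
    refine Finset.sum_le_sum fun k hk => ?_
    have hkI := (mem_sdiff.1 hk).1
    rw [hdlam k hkI]
    push_cast
    have h1 : (1 : ℤ) ≤ b k := by exact_mod_cast hb1 k
    have h2 : (1 : ℤ) ≤ lam k := by exact_mod_cast hlam1 k hkI
    have h3 : (0 : ℤ) < M := by exact_mod_cast hM
    nlinarith [mul_nonneg h3.le (mul_nonneg (sub_nonneg.2 h1) (sub_nonneg.2 h2))]
  have t2 : ∑ i ∈ C, ((M : ℤ) * lam i) ≤ d (J i₀) := by
    rw [← Finset.mul_sum, hdlam i₀ (hCI hi₀)]
    push_cast
    have h1 : (∑ i ∈ C, (lam i : ℤ)) ≤ b i₀ * lam i₀ := by exact_mod_cast hsumlam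
    have h3 : (0 : ℤ) < M := by exact_mod_cast hM
    calc (M : ℤ) * ∑ i ∈ C, (lam i : ℤ) ≤ M * (b i₀ * lam i₀) :=
          mul_le_mul_of_nonneg_left h1 h3.le
      _ = M * b i₀ * lam i₀ := by ring
  have t3 : ∑ i ∈ C.erase i₀, ((ℓ i : ℤ) - 1) * a i =
      ∑ i ∈ C.erase i₀, ((d (J i) : ℤ) - a i) := by
    refine Finset.sum_congr rfl fun i hi => ?_
    have h1 := hℓa i (hCI (Finset.mem_of_mem_erase hi))
    have h2 : (ℓ i : ℤ) * a i = d (J i) := by exact_mod_cast h1
    rw [sub_mul, one_mul, h2]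
  have t4 : (((ks.map a).sum : ℕ) : ℤ) = ∑ i ∈ I \ C, (a i : ℤ) := by
    rw [hsumks]
    push_cast
    rfl
  obtain ⟨s, hs, hse⟩ := hfin (e : ℤ) (by rw [hG1]; exact one_dvd _) (by
    rw [t3, t4]
    rw [s1, s2, s3 (fun i => (d (J i) : ℤ) - 1), s3 (fun i => (a i : ℤ) - 1)] at z2
    rw [s3 (fun i => (M : ℤ) * lam i - M)] at z1
    rw [← Finset.add_sum_erase _ _ hi₀] at t2
    have hnn : (0 : ℤ) ≤ (C.erase i₀).card := Nat.cast_nonneg _
    simp only [Finset.sum_sub_distrib, Finset.sum_add_distrib, Finset.sum_const, nsmul_eq_mul,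
      mul_one, mul_sub, ← Finset.mul_sum] at z1 z2 t1 t2 ⊢
    rw [s4, s5] at z1 z2
    clear * - z1 z2 t1 t2 hnn
    linarith)
  have : s = e := by exact_mod_cast hse
  rwa [this] at hs

/-- the arithmetic theorem -/
theorem Sys.mem_sg (S : Sys a d I) {e : ℕ} (he : ∑ j, (d j - 1) ≤ e + ∑ i, (a i - 1)) :
    e ∈ sg a I := by
  by_cases h : ∀ i ∈ I, ∀ k ∈ I, i ≠ k → ∀ j, a i ∣ d j → ¬ a k ∣ d j
  · exact mem_sg_large_of_disjoint S h he
  · push Not at h
    obtain ⟨i, hi, k, hk, hne, j, h1, h2⟩ := h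
    exact mem_sg_large_of_common S hi hk hne.symm h1 h2 he

end Pool.Agent.V5helper12.FJ
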