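import Pool.Agent.V5helper12.FJ.Count

/-!
# Chains of generators of a numerical semigroup
-/

set_option autoImplicit false

namespace Pool.Agent.V5helper12.FJ

open Finset

/-- all multiples of `G` that are at least `B` belong to `S` -/
def Th (S : AddSubmonoid ℕ) (G : ℕ) (B : ℤ) : Prop :=
  ∀ n : ℤ, (G : ℤ) ∣ n → B ≤ n → ∃ s ∈ S, (s : ℤ) = n

theorem Th.step {S : AddSubmonoid ℕ} {G : ℕ} {B : ℤ} (h : Th S G B) (hG : 0 < G) {x : ℕ}
    (hx : x ∈ S) (hx0 : 0 < x) : Th S (Nat.gcd G x) (B + Nat.lcm G x - x) := by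
  intro n hn hB
  set g := Nat.gcd G x with hg
  have hg0 : 0 < g := Nat.gcd_pos_of_pos_left _ hG
  obtain ⟨G', hG'⟩ : g ∣ G := Nat.gcd_dvd_left _ _
  obtain ⟨x', hx'⟩ : g ∣ x := Nat.gcd_dvd_right _ _
  have hG'0 : 0 < G' := by
    rcases Nat.eq_zero_or_pos G' with h0 | h0
    · rw [h0, mul_zero] at hG'
      omega
    · exact h0
  have hlcm : Nat.lcm G x = G' * x := by
    rw [Nat.lcm, ← hg]
    nth_rewrite 1 [hG']
    rw [mul_assoc, Nat.mul_div_cancel_left _ hg0]
  obtain ⟨t, ht⟩ := hn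
  -- the multiplier
  set u0 : ℤ := t * Nat.gcdB G x with hu0
  have hbez : (g : ℤ) = G * Nat.gcdA G x + x * Nat.gcdB G x := Nat.gcd_eq_gcd_ab G x
  set u : ℤ := u0 % (G' : ℤ) with hu
  have hG'z : (0 : ℤ) < G' := by exact_mod_cast hG'0
  have hu1 : 0 ≤ u := Int.emod_nonneg _ hG'z.ne'
  have hu2 : u < G' := Int.emod_lt_of_pos _ hG'z
  have hdvd : (G : ℤ) ∣ n - u * x := by
    have h1 : u0 = u + G' * (u0 / G') := by
      rw [hu]
      exact (Int.emod_add_mul_ediv _ _).symm
    have h2 : n = t * G * Nat.gcdA G x + u0 * x := by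
      rw [ht, hbez, hu0]
      ring
    have h3 : (G' : ℤ) * x = G * x' := by
      have e1 : (G : ℤ) = g * G' := by exact_mod_cast hG'
      have e2 : (x : ℤ) = g * x' := by exact_mod_cast hx'
      rw [e1, e2]
      ring
    refine ⟨t * Nat.gcdA G x + x' * (u0 / G'), ?_⟩
    have h4 : u0 * x = u * x + G * x' * (u0 / G') := by
      have : (u + G' * (u0 / G')) * (x : ℤ) = u * x + (G' * x) * (u0 / G') := by ring
      rw [← h1, h3] at this
      rw [this]
    rw [h2, h4]
    ring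
  have hB' : B ≤ n - u * x := by
    have h1 : u ≤ G' - 1 := by omega
    have h2 : u * x ≤ (G' - 1) * x := by
      have hx0' : (0 : ℤ) ≤ x := by positivity
      exact mul_le_mul_of_nonneg_right h1 hx0'
    have h3 : ((Nat.lcm G x : ℕ) : ℤ) = G' * x := by
      rw [hlcm]
      push_cast
      ring
    rw [h3] at hB
    linarith
  obtain ⟨s, hs, hs'⟩ := h _ hdvd hB'
  refine ⟨s + u.toNat * x, S.add_mem hs ?_, ?_⟩
  · rw [← smul_eq_mul]
    exact S.nsmul_mem hx _
  · push_cast
    rw [hs', Int.toNat_of_nonneg hu1]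
    ring

variable {ι : Type*}

/-- the degrees of the relations of a chain of generators -/
def Wl (a : ι → ℕ) : ℕ → List ι → List ℕ
  | _, [] => []
  | G, k :: ks => Nat.lcm G (a k) :: Wl a (Nat.gcd G (a k)) ks

/-- the greatest common divisor -/
def Gl (a : ι → ℕ) : ℕ → List ι → ℕ
  | G, [] => G
  | G, k :: ks => Gl a (Nat.gcd G (a k)) ks

theorem Th.chain {S : AddSubmonoid ℕ} {a : ι → ℕ} (ks : List ι) (hks : ∀ k ∈ ks, a k ∈ S)
    (hpos : ∀ k ∈ ks, 0 < a k) {G : ℕ} (hG : 0 < G) {B : ℤ} (h : Th S G B) :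
    Th S (Gl a G ks) (B + (Wl a G ks).sum - (ks.map a).sum) := by
  induction ks generalizing G B with
  | nil => simpa [Gl, Wl] using h
  | cons k ks ih =>
    have h1 := h.step hG (hks k List.mem_cons_self) (hpos k List.mem_cons_self)
    have h2 := ih (fun x hx => hks x (List.mem_cons_of_mem _ hx))
      (fun x hx => hpos x (List.mem_cons_of_mem _ hx)) (Nat.gcd_pos_of_pos_left _ hG) h1
    have h3 : B + ((Wl a G (k :: ks)).sum : ℕ) - (((k :: ks).map a).sum : ℕ) =
        B + (Nat.lcm G (a k) : ℕ) - (a k : ℕ) + ((Wl a (Nat.gcd G (a k)) ks).sum : ℕ) -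
          ((ks.map a).sum : ℕ) := by
      simp only [Wl, List.sum_cons, List.map_cons]
      push_cast
      ring
    rw [h3]
    exact h2

theorem Gl_dvd_left (a : ι → ℕ) (G : ℕ) (ks : List ι) : Gl a G ks ∣ G := by
  induction ks generalizing G with
  | nil => exact dvd_rfl
  | cons k ks ih => exact (ih _).trans (Nat.gcd_dvd_left _ _)

theorem Gl_dvd_right (a : ι → ℕ) (G : ℕ) (ks : List ι) : ∀ k ∈ ks, Gl a G ks ∣ a k := by
  induction ks generalizing G with
  | nil => intro k hk; simp at hk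
  | cons k ks ih =>
    intro x hx
    rcases List.mem_cons.1 hx with rfl | hx
    · show Gl a (Nat.gcd G (a x)) ks ∣ a x
      exact (Gl_dvd_left _ _ _).trans (Nat.gcd_dvd_right _ _)
    · exact ih _ x hx

theorem length_Wl (a : ι → ℕ) (G : ℕ) (ks : List ι) : (Wl a G ks).length = ks.length := by
  induction ks generalizing G with
  | nil => rfl
  | cons k ks ih => simp [Wl, ih]

theorem mem_Wl {a : ι → ℕ} {G : ℕ} {ks : List ι} {w : ℕ} (hw : w ∈ Wl a G ks) :
    ∃ k ∈ ks, ∃ G', G' ∣ G ∧ w = Nat.lcm G' (a k) := by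
  induction ks generalizing G with
  | nil => simp [Wl] at hw
  | cons k ks ih =>
    rcases List.mem_cons.1 hw with rfl | hw
    · exact ⟨k, List.mem_cons_self, G, dvd_rfl, rfl⟩
    · obtain ⟨k', hk', G', hG', h⟩ := ih hw
      exact ⟨k', List.mem_cons_of_mem _ hk', G', hG'.trans (Nat.gcd_dvd_left _ _), h⟩

theorem prime_pow_dvd_lcm {p r x y : ℕ} (hp : p.Prime) (hx : x ≠ 0) (hy : y ≠ 0)
    (h : p ^ r ∣ Nat.lcm x y) : p ^ r ∣ x ∨ p ^ r ∣ y := by
  rw [hp.pow_dvd_iff_le_factorization (Nat.lcm_ne_zero hx hy), Nat.factorization_lcm hx hy,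
    Finsupp.sup_apply] at h
  rcases le_sup_iff.1 h with h | h
  · exact Or.inl ((hp.pow_dvd_iff_le_factorization hx).2 h)
  · exact Or.inr ((hp.pow_dvd_iff_le_factorization hy).2 h)

theorem countP_Wl {a : ι → ℕ} {p r : ℕ} (hp : p.Prime) (ks : List ι) (hpos : ∀ k ∈ ks, 0 < a k)
    {G : ℕ} (hG : 0 < G) :
    (Wl a G ks).countP (fun w => p ^ r ∣ w) ≤
      (ks.countP fun k => p ^ r ∣ a k) + if p ^ r ∣ G then 1 else 0 := by
  classical
  induction ks generalizing G with
  | nil => simp [Wl]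
  | cons k ks ih =>
    have h1 := ih (fun x hx => hpos x (List.mem_cons_of_mem _ hx))
      (Nat.gcd_pos_of_pos_left (a k) hG)
    have hk := hpos k List.mem_cons_self
    rw [Wl, List.countP_cons, List.countP_cons]
    simp only [decide_eq_true_eq]
    by_cases hA : p ^ r ∣ G
    · by_cases hB : p ^ r ∣ a k
      · have h2 : p ^ r ∣ Nat.gcd G (a k) := Nat.dvd_gcd hA hB
        rw [if_pos h2] at h1
        rw [if_pos hA, if_pos hB]
        split_ifs <;> omega
      · have h2 : ¬ p ^ r ∣ Nat.gcd G (a k) := fun h => hB (h.trans (Nat.gcd_dvd_right _ _))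
        rw [if_neg h2] at h1
        rw [if_pos hA, if_neg hB]
        split_ifs <;> omega
    · have h2 : ¬ p ^ r ∣ Nat.gcd G (a k) := fun h => hA (h.trans (Nat.gcd_dvd_left _ _))
      rw [if_neg h2] at h1
      by_cases hB : p ^ r ∣ a k
      · rw [if_neg hA, if_pos hB]
        split_ifs <;> omega
      · have h3 : ¬ p ^ r ∣ Nat.lcm G (a k) := by
          intro h
          rcases prime_pow_dvd_lcm hp hG.ne' hk.ne' h with h | h
          · exact hA h
          · exact hB h
        rw [if_neg hA, if_neg hB, if_neg h3]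
        omega

end Pool.Agent.V5helper12.FJ
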