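import Mathlib

/-!
# Comparison of sums of natural numbers by the products of their large elements
-/

set_option autoImplicit false

namespace Pool.Agent.V5helper12.FJ

open Finset

/-- the function `(x - 1) / log x` -/
noncomputable def hh (x : ℕ) : ℝ := if 2 ≤ x then ((x : ℝ) - 1) / Real.log x else 0

theorem hh_mul_log {x : ℕ} (hx : 0 < x) : hh x * Real.log x = (x : ℝ) - 1 := by
  unfold hh
  split_ifs with h
  · have h1 : (1 : ℝ) < x := by exact_mod_cast h
    have h2 := Real.log_pos h1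
    field_simp
  · have : x = 1 := by omega
    subst this
    simp

theorem sub_one_mul_log_le {x y : ℕ} (hx : 2 ≤ x) (hxy : x ≤ y) :
    ((x : ℝ) - 1) * Real.log y ≤ ((y : ℝ) - 1) * Real.log x := by
  have hx1 : (1 : ℝ) < x := by exact_mod_cast hx
  have hxy' : (x : ℝ) ≤ y := by exact_mod_cast hxy
  have hy1 : (1 : ℝ) < y := lt_of_lt_of_le hx1 hxy'
  have hy0 : (0 : ℝ) < (y : ℝ) - 1 := by linarith
  have hconc : ConcaveOn ℝ (Set.Ioi 0) Real.log := strictConcaveOn_log_Ioi.concaveOn
  set t : ℝ := ((x : ℝ) - 1) / ((y : ℝ) - 1) with ht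
  have ht0 : 0 ≤ t := div_nonneg (by linarith) hy0.le
  have ht1 : t ≤ 1 := by
    rw [ht, div_le_one hy0]
    linarith
  have h1 := hconc.2 (show (y : ℝ) ∈ Set.Ioi (0 : ℝ) from by simp; linarith)
    (show (1 : ℝ) ∈ Set.Ioi (0 : ℝ) from by simp) ht0 (sub_nonneg.2 ht1) (by ring)
  simp only [smul_eq_mul, Real.log_one, mul_zero, add_zero, mul_one] at h1
  have h2 : t * (y : ℝ) + (1 - t) = x := by
    have : t * ((y : ℝ) - 1) = (x : ℝ) - 1 := by
      rw [ht, div_mul_cancel₀ _ hy0.ne']
    linarith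
  rw [h2] at h1
  have h3 : t * Real.log y * ((y : ℝ) - 1) ≤ Real.log x * ((y : ℝ) - 1) :=
    mul_le_mul_of_nonneg_right h1 hy0.le
  have h4 : t * ((y : ℝ) - 1) = (x : ℝ) - 1 := by
    rw [ht, div_mul_cancel₀ _ hy0.ne']
  calc ((x : ℝ) - 1) * Real.log y = t * ((y : ℝ) - 1) * Real.log y := by rw [h4]
    _ = t * Real.log y * ((y : ℝ) - 1) := by ring
    _ ≤ Real.log x * ((y : ℝ) - 1) := h3
    _ = ((y : ℝ) - 1) * Real.log x := by ring

theorem hh_mono {x y : ℕ} (hxy : x ≤ y) : hh x ≤ hh y := by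
  unfold hh
  split_ifs with h1 h2 h2
  · have hx1 : (1 : ℝ) < x := by exact_mod_cast h1
    have hy1 : (1 : ℝ) < y := by exact_mod_cast h2
    rw [div_le_div_iff₀ (Real.log_pos hx1) (Real.log_pos hy1)]
    exact sub_one_mul_log_le h1 hxy
  · omega
  · have hy1 : (1 : ℝ) < y := by exact_mod_cast h2
    exact div_nonneg (by linarith) (Real.log_pos hy1).le
  · exact le_rfl

theorem hh_zero : hh 0 = 0 := by simp [hh]

theorem hh_eq_sum {x N : ℕ} (hN : x ≤ N) :
    hh x = ∑ θ ∈ range N, if θ + 1 ≤ x then hh (θ + 1) - hh θ else 0 := by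
  rw [← Finset.sum_filter]
  have h1 : (range N).filter (fun θ => θ + 1 ≤ x) = range x := by
    ext θ
    simp only [mem_filter, mem_range]
    omega
  rw [h1, Finset.sum_range_sub, hh_zero, sub_zero]

/-- the product of the elements that are at least `θ` -/
def bigProd (θ : ℕ) (A : Multiset ℕ) : ℕ := (A.filter fun x => θ ≤ x).prod

theorem bigProd_cons (θ x : ℕ) (A : Multiset ℕ) :
    bigProd θ (x ::ₘ A) = (if θ ≤ x then x else 1) * bigProd θ A := by
  unfold bigProd
  rw [Multiset.filter_cons]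
  split_ifs with h
  · simp
  · simp

theorem bigProd_pos {θ : ℕ} {A : Multiset ℕ} (hA : ∀ x ∈ A, 0 < x) : 0 < bigProd θ A := by
  unfold bigProd
  refine Nat.pos_of_ne_zero ?_
  rw [Ne, Multiset.prod_eq_zero_iff]
  intro h
  exact absurd (hA 0 (Multiset.mem_filter.1 h).1) (lt_irrefl 0)

theorem sum_eq_log {N : ℕ} (A : Multiset ℕ) (hA : ∀ x ∈ A, 0 < x ∧ x ≤ N) :
    (((A.map fun x => x - 1).sum : ℕ) : ℝ) =
      ∑ θ ∈ range N, (hh (θ + 1) - hh θ) * Real.log (bigProd (θ + 1) A) := by
  induction A using Multiset.induction_on with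
  | empty => simp [bigProd]
  | cons x A ih =>
    have hx := hA x (Multiset.mem_cons_self _ _)
    have ih' := ih fun y hy => hA y (Multiset.mem_cons_of_mem hy)
    have hpos : ∀ θ, (0 : ℝ) < bigProd θ A := fun θ => by
      exact_mod_cast bigProd_pos fun y hy => (hA y (Multiset.mem_cons_of_mem hy)).1
    rw [Multiset.map_cons, Multiset.sum_cons, Nat.cast_add, ih']
    have e1 : ((x - 1 : ℕ) : ℝ) = ∑ θ ∈ range N, (hh (θ + 1) - hh θ) *
        Real.log ((if θ + 1 ≤ x then x else 1 : ℕ) : ℝ) := by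
      rw [Nat.cast_sub hx.1, Nat.cast_one, ← hh_mul_log hx.1, hh_eq_sum hx.2, Finset.sum_mul]
      refine Finset.sum_congr rfl fun θ _ => ?_
      split_ifs <;> simp
    rw [e1, ← Finset.sum_add_distrib]
    refine Finset.sum_congr rfl fun θ _ => ?_
    rw [bigProd_cons, Nat.cast_mul, Real.log_mul ?_ (hpos _).ne', mul_add]
    split_ifs
    · exact_mod_cast hx.1.ne'
    · simp

/-- if the product of the elements `≥ θ` of `A` is at most the product of the elements `≥ θ` of `B`,
for all `θ`, then `∑ (x - 1)` over `A` is at most `∑ (x - 1)` over `B` -/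
theorem sum_sub_one_le_of_bigProd (A B : Multiset ℕ) (hA : ∀ x ∈ A, 0 < x) (hB : ∀ x ∈ B, 0 < x)
    (h : ∀ θ, bigProd θ A ≤ bigProd θ B) :
    (A.map fun x => x - 1).sum ≤ (B.map fun x => x - 1).sum := by
  set N := A.sum + B.sum with hN
  have h1 := sum_eq_log (N := N) A fun w hw => ⟨hA w hw, (Multiset.single_le_sum
      (fun _ _ => Nat.zero_le _) w hw).trans (Nat.le_add_right _ _)⟩
  have h2 := sum_eq_log (N := N) B fun w hw => ⟨hB w hw, (Multiset.single_le_sum
      (fun _ _ => Nat.zero_le _) w hw).trans (Nat.le_add_left _ _)⟩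
  have h3 : (((A.map fun x => x - 1).sum : ℕ) : ℝ) ≤ (((B.map fun x => x - 1).sum : ℕ) : ℝ) := by
    rw [h1, h2]
    refine Finset.sum_le_sum fun θ _ => ?_
    refine mul_le_mul_of_nonneg_left ?_ (sub_nonneg.2 (hh_mono (Nat.le_succ _)))
    refine Real.log_le_log ?_ ?_
    · exact_mod_cast bigProd_pos hA
    · exact_mod_cast h (θ + 1)
  exact_mod_cast h3

/-! ### Divisibility of products by counting prime powers -/

theorem factorization_prod_eq {R p : ℕ} (hp : p.Prime) (A : Multiset ℕ) (hA : ∀ x ∈ A, 0 < x)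
    (hR : ∀ x ∈ A, x.factorization p ≤ R) :
    A.prod.factorization p = ∑ r ∈ Icc 1 R, A.countP (fun x => p ^ r ∣ x) := by
  classical
  induction A using Multiset.induction_on with
  | empty => simp
  | cons x A ih =>
    have hx := hA x (Multiset.mem_cons_self _ _)
    have hA' : A.prod ≠ 0 := by
      rw [Ne, Multiset.prod_eq_zero_iff]
      intro h
      exact absurd (hA 0 (Multiset.mem_cons_of_mem h)) (lt_irrefl 0)
    rw [Multiset.prod_cons, Nat.factorization_mul hx.ne' hA', Finsupp.add_apply,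
      ih (fun y hy => hA y (Multiset.mem_cons_of_mem hy))
        (fun y hy => hR y (Multiset.mem_cons_of_mem hy))]
    simp only [Multiset.countP_cons]
    rw [Finset.sum_add_distrib, add_comm]
    congr 1
    rw [← Finset.sum_filter, ← Finset.card_eq_sum_ones]
    have : (Icc 1 R).filter (fun r => p ^ r ∣ x) = Icc 1 (x.factorization p) := by
      ext r
      simp only [mem_filter, mem_Icc]
      rw [hp.pow_dvd_iff_le_factorization hx.ne']
      have := hR x (Multiset.mem_cons_self _ _)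
      omega
    rw [this, Nat.card_Icc]
    omega

theorem prod_dvd_prod_of_count (A B : Multiset ℕ) (hA : ∀ x ∈ A, 0 < x) (hB : ∀ x ∈ B, 0 < x)
    (h : ∀ p r : ℕ, p.Prime → 0 < r → A.countP (fun x => p ^ r ∣ x) ≤
      B.countP (fun x => p ^ r ∣ x)) : A.prod ∣ B.prod := by
  classical
  have hA' : A.prod ≠ 0 := by
    rw [Ne, Multiset.prod_eq_zero_iff]
    intro h
    exact absurd (hA 0 h) (lt_irrefl 0)
  have hB' : B.prod ≠ 0 := by
    rw [Ne, Multiset.prod_eq_zero_iff]
    intro h
    exact absurd (hB 0 h) (lt_irrefl 0)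
  rw [← Nat.factorization_prime_le_iff_dvd hA' hB']
  intro p hp
  set R : ℕ := (A.map fun x => x.factorization p).sum + (B.map fun x => x.factorization p).sum
    with hR
  have h1 : ∀ x ∈ A, x.factorization p ≤ R := fun x hx =>
    (Multiset.single_le_sum (fun _ _ => Nat.zero_le _) _
      (Multiset.mem_map_of_mem (fun x : ℕ => x.factorization p) hx)).trans (Nat.le_add_right _ _)
  have h2 : ∀ x ∈ B, x.factorization p ≤ R := fun x hx =>
    (Multiset.single_le_sum (fun _ _ => Nat.zero_le _) _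
      (Multiset.mem_map_of_mem (fun x : ℕ => x.factorization p) hx)).trans (Nat.le_add_left _ _)
  rw [factorization_prod_eq hp A hA h1, factorization_prod_eq hp B hB h2]
  refine Finset.sum_le_sum fun r hr => h p r hp ?_
  have := (mem_Icc.1 hr).1
  omega

end Pool.Agent.V5helper12.FJ
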