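import Pool.Agent.V5helper12.FJ.Arith2
import Pool.Agent.V5helper12.FJ.PD

/-!
# Numerical semigroups generated by weights: a good factorisation
-/

set_option autoImplicit false
set_option linter.unusedSectionVars false

namespace Pool.Agent.V5helper12.FJ

open Finset

variable {ι : Type*} [Fintype ι] [DecidableEq ι]

theorem exists_max_of_bdd {α : Type*} (P : α → Prop) (f : α → ℕ) (B : ℕ)
    (h : ∀ x, P x → f x ≤ B) (hne : ∃ x, P x) : ∃ x, P x ∧ ∀ y, P y → f y ≤ f x := by
  obtain ⟨x₀, hx₀⟩ := hne
  set S : Set ℕ := {n | ∃ x, P x ∧ f x = n} with hS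
  have h1 : S.Nonempty := ⟨f x₀, x₀, hx₀, rfl⟩
  have h2 : BddAbove S := ⟨B, by
    rintro n ⟨x, hx, rfl⟩
    exact h x hx⟩
  obtain ⟨x, hx, hxe⟩ := Nat.sSup_mem h1 h2
  refine ⟨x, hx, fun y hy => ?_⟩
  rw [hxe]
  exact le_csSup h2 ⟨y, hy, rfl⟩

theorem sg_mono {a : ι → ℕ} {C I : Finset ι} (h : C ⊆ I) : sg a C ≤ sg a I := by
  rintro n ⟨m, hm⟩
  refine ⟨fun k => if k ∈ C then m k else 0, ?_⟩
  rw [← hm, ← Finset.sum_subset h]
  · exact Finset.sum_congr rfl fun k hk => by simp only [if_pos hk]
  · intro k _ hk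
    simp only [if_neg hk, zero_mul]

/-- a potential which increases if a multiple of a weight is expressed by the others -/
theorem exists_potential {a D : ι → ℕ} {C : Finset ι} (ha : ∀ i ∈ C, 0 < a i)
    (hD : ∀ i ∈ C, D i ∈ sg a (C.erase i))
    (hmin : ∀ U ⊆ C, U.Nonempty → (∀ i ∈ U, D i ∈ sg a (U.erase i)) → U = C)
    {i₀ : ι} (hi₀ : i₀ ∈ C) :
    ∃ κ : ι → ℕ, ∀ i ∈ C, i ≠ i₀ → ∃ μ : ι → ℕ, ∑ k ∈ C.erase i, μ k * a k = D i ∧
      D i * κ i < ∑ k ∈ C.erase i, μ k * a k * κ k := by
  have key : ∀ n : ℕ, ∀ R ⊆ C, i₀ ∈ R → (C \ R).card = n →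
      (∃ κ : ι → ℕ, (∀ k ∈ R, 0 < κ k) ∧ (∀ k, k ∉ R → κ k = 0) ∧
        ∀ i ∈ R, i ≠ i₀ → ∃ μ : ι → ℕ, ∑ k ∈ C.erase i, μ k * a k = D i ∧
          D i * κ i < ∑ k ∈ C.erase i, μ k * a k * κ k) →
      ∃ κ : ι → ℕ, ∀ i ∈ C, i ≠ i₀ → ∃ μ : ι → ℕ, ∑ k ∈ C.erase i, μ k * a k = D i ∧
        D i * κ i < ∑ k ∈ C.erase i, μ k * a k * κ k := by
    intro n
    induction n with
    | zero =>
      rintro R hR _ hn ⟨κ, -, -, h⟩
      rw [card_eq_zero, sdiff_eq_empty_iff_subset] at hn
      exact ⟨κ, fun i hi => h i (hn hi)⟩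
    | succ n ih =>
      rintro R hR hR0 hn ⟨κ, hκ1, hκ2, hκ3⟩
      have hne : (C \ R).Nonempty := by
        rw [← card_pos]
        omega
      have hnotclosed : ¬ ∀ i ∈ C \ R, D i ∈ sg a ((C \ R).erase i) := by
        intro h
        have h1 := hmin (C \ R) sdiff_subset hne h
        have h2 : i₀ ∈ C \ R := by rw [h1]; exact hi₀
        exact (mem_sdiff.1 h2).2 hR0
      push Not at hnotclosed
      obtain ⟨i, hi, hiD⟩ := hnotclosed
      obtain ⟨hiC, hiR⟩ := mem_sdiff.1 hi
      obtain ⟨μ, hμ⟩ := hD i hiC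
      obtain ⟨k₀, hk₀, hk₀C, hμk₀⟩ : ∃ k ∈ R, k ∈ C.erase i ∧ μ k ≠ 0 := by
        by_contra hcon
        push Not at hcon
        apply hiD
        refine ⟨μ, ?_⟩
        rw [← hμ]
        refine Finset.sum_subset (Finset.erase_subset_erase _ sdiff_subset) ?_
        intro k hk hk'
        have hkR : k ∈ R := by
          by_contra hkR
          exact hk' (mem_erase.2 ⟨(mem_erase.1 hk).1, mem_sdiff.2 ⟨(mem_erase.1 hk).2, hkR⟩⟩)
        rw [hcon k hkR hk, zero_mul]
      set κ' : ι → ℕ := fun k => if k = i then 1 else (D i + 1) * κ k with hκ'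
      refine ih (insert i R) (insert_subset hiC hR) (mem_insert_of_mem hR0) ?_ ⟨κ', ?_, ?_, ?_⟩
      · have h1 : C \ insert i R = (C \ R).erase i := by
          ext k
          simp only [mem_sdiff, mem_insert, mem_erase]
          tauto
        rw [h1, card_erase_of_mem hi, hn]
        rfl
      · intro k hk
        by_cases hki : k = i
        · simp [hκ', hki]
        · have hkR : k ∈ R := by
            rcases mem_insert.1 hk with h | h
            · exact absurd h hki
            · exact h
          simp only [hκ', if_neg hki]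
          exact Nat.mul_pos (Nat.succ_pos _) (hκ1 k hkR)
      · intro k hk
        have hki : k ≠ i := fun h => hk (h ▸ mem_insert_self _ _)
        have hkR : k ∉ R := fun h => hk (mem_insert_of_mem h)
        simp only [hκ', if_neg hki, hκ2 k hkR, mul_zero]
      · intro l hl hl0
        by_cases hli : l = i
        · subst hli
          refine ⟨μ, hμ, ?_⟩
          have h1 : μ k₀ * a k₀ * κ' k₀ ≤ ∑ k ∈ C.erase l, μ k * a k * κ' k :=
            Finset.single_le_sum (f := fun k => μ k * a k * κ' k) (fun _ _ => Nat.zero_le _) hk₀C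
          have h2 : D l + 1 ≤ μ k₀ * a k₀ * κ' k₀ := by
            have hne' : k₀ ≠ l := (mem_erase.1 hk₀C).1
            simp only [hκ', if_neg hne']
            have h3 : 1 ≤ μ k₀ * a k₀ * κ k₀ := by
              refine Nat.mul_pos (Nat.mul_pos (Nat.pos_of_ne_zero hμk₀) ?_) (hκ1 k₀ hk₀)
              exact ha k₀ (mem_erase.1 hk₀C).2
            calc D l + 1 = (D l + 1) * 1 := (mul_one _).symm
              _ ≤ (D l + 1) * (μ k₀ * a k₀ * κ k₀) := Nat.mul_le_mul_left _ h3
              _ = μ k₀ * a k₀ * ((D l + 1) * κ k₀) := by ring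
          have h3 : κ' l = 1 := by simp [hκ']
          rw [h3, mul_one]
          omega
        · have hlR : l ∈ R := by
            rcases mem_insert.1 hl with h | h
            · exact absurd h hli
            · exact h
          obtain ⟨ν, hν1, hν2⟩ := hκ3 l hlR hl0
          refine ⟨ν, hν1, ?_⟩
          have h1 : κ' l = (D i + 1) * κ l := by simp only [hκ', if_neg hli]
          rw [h1]
          calc D l * ((D i + 1) * κ l) = (D i + 1) * (D l * κ l) := by ring
            _ < (D i + 1) * ∑ k ∈ C.erase l, ν k * a k * κ k :=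
              Nat.mul_lt_mul_of_pos_left hν2 (Nat.succ_pos _)
            _ = ∑ k ∈ C.erase l, (D i + 1) * (ν k * a k * κ k) := Finset.mul_sum _ _ _
            _ ≤ ∑ k ∈ C.erase l, ν k * a k * κ' k := by
              refine Finset.sum_le_sum fun k _ => ?_
              by_cases hki : k = i
              · subst hki
                rw [hκ2 k hiR]
                simp
              · simp only [hκ', if_neg hki]
                exact le_of_eq (by ring)
  refine key _ {i₀} (singleton_subset_iff.2 hi₀) (mem_singleton_self _) rfl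
    ⟨fun k => if k = i₀ then 1 else 0, ?_, ?_, ?_⟩
  · intro k hk
    simp only [if_pos (mem_singleton.1 hk)]
    exact Nat.one_pos
  · intro k hk
    exact if_neg fun h => hk (mem_singleton.2 h)
  · intro i hi hi'
    exact absurd (mem_singleton.1 hi) hi'

/-- the good factorisation -/
theorem exists_row {a D : ι → ℕ} {C : Finset ι} (ha : ∀ i ∈ C, 0 < a i) {i₀ : ι} (hi₀ : i₀ ∈ C)
    {κ : ι → ℕ} (hκ : ∀ i ∈ C, i ≠ i₀ → ∃ μ : ι → ℕ, ∑ k ∈ C.erase i, μ k * a k = D i ∧
      D i * κ i < ∑ k ∈ C.erase i, μ k * a k * κ k)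
    (hdvd : ∀ i ∈ C, a i ∣ D i) {F : ℕ} (hF : F ∉ sg a C) (hw : F + a i₀ ∈ sg a C) :
    ∃ u : ι → ℕ, ∑ k ∈ C.erase i₀, u k * a k = F + a i₀ ∧
      (∀ i ∈ C, i ≠ i₀ → (u i + 1) * a i ≤ D i) ∧
      ∀ J ⊆ C.erase i₀, ∏ k ∈ J, (u k + 1) ≤ a i₀ := by
  set W := F + a i₀ with hW
  set P : (ι → ℕ) → Prop := fun u => (∀ k, k ∉ C → u k = 0) ∧ ∑ k ∈ C, u k * a k = W with hP
  have hbd : ∀ u, P u → ∀ k, u k ≤ W := by
    intro u hu k
    by_cases hk : k ∈ C
    · have h1 : u k * a k ≤ ∑ k ∈ C, u k * a k :=
        Finset.single_le_sum (f := fun k => u k * a k) (fun _ _ => Nat.zero_le _) hk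
      rw [hu.2] at h1
      exact (Nat.le_mul_of_pos_right _ (ha k hk)).trans h1
    · rw [hu.1 k hk]
      exact Nat.zero_le _
  set N : ℕ := Fintype.card ι * W ^ 2 + 1 with hN
  set L : (ι → ℕ) → ℕ := fun u => ∑ k ∈ C, u k * a k * κ k with hL
  set Q : (ι → ℕ) → ℕ := fun u => ∑ k, u k ^ 2 with hQ
  have hQlt : ∀ u, P u → Q u < N := by
    intro u hu
    have : Q u ≤ ∑ _k : ι, W ^ 2 :=
      Finset.sum_le_sum fun k _ => Nat.pow_le_pow_left (hbd u hu k) 2
    rw [Finset.sum_const, Finset.card_univ, smul_eq_mul] at this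
    omega
  obtain ⟨u, hu, hmax⟩ := exists_max_of_bdd P (fun u => N * L u + Q u)
    (N * (∑ k ∈ C, W * a k * κ k) + N) (by
      intro u hu
      refine Nat.add_le_add (Nat.mul_le_mul_left _ (Finset.sum_le_sum fun k _ => ?_))
        (hQlt u hu).le
      exact Nat.mul_le_mul_right _ (Nat.mul_le_mul_right _ (hbd u hu k))) (by
      obtain ⟨m, hm⟩ := hw
      refine ⟨fun k => if k ∈ C then m k else 0, fun k hk => if_neg hk, ?_⟩
      rw [← hm]
      exact Finset.sum_congr rfl fun k hk => by simp only [if_pos hk])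
  have hu0 : u i₀ = 0 := by
    by_contra h0
    apply hF
    refine ⟨fun k => if k = i₀ then u k - 1 else u k, ?_⟩
    have h1 := hu.2
    rw [← Finset.add_sum_erase _ _ hi₀] at h1 ⊢
    beta_reduce
    rw [if_pos rfl]
    have h2 : ∑ x ∈ C.erase i₀, (if x = i₀ then u x - 1 else u x) * a x =
        ∑ x ∈ C.erase i₀, u x * a x :=
      Finset.sum_congr rfl fun x hx => by rw [if_neg (mem_erase.1 hx).1]
    rw [h2]
    have h3 : u i₀ * a i₀ = (u i₀ - 1) * a i₀ + a i₀ := by
      obtain ⟨t, ht⟩ := Nat.exists_eq_succ_of_ne_zero h0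
      rw [ht]
      simp [Nat.succ_mul]
    omega
  have hsum : ∑ k ∈ C.erase i₀, u k * a k = W := by
    rw [← hu.2, ← Finset.add_sum_erase _ _ hi₀, hu0, zero_mul, zero_add]
  refine ⟨u, hsum, ?_, ?_⟩
  · -- stability
    intro i hi hii
    by_contra hcon
    push Not at hcon
    obtain ⟨c, hc⟩ := hdvd i hi
    have hcu : c ≤ u i := by
      rw [hc, mul_comm (a i) c] at hcon
      have := Nat.lt_of_mul_lt_mul_right hcon
      omega
    obtain ⟨μ, hμ1, hμ2⟩ := hκ i hi hii
    set u' : ι → ℕ := fun k => if k = i then u i - c else if k ∈ C then u k + μ k else 0 with hu'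
    have e0 : ∀ x ∈ C.erase i, u' x = u x + μ x := fun x hx => by
      simp only [hu', if_neg (mem_erase.1 hx).1, if_pos (mem_erase.1 hx).2]
    have e0' : u' i = u i - c := by simp [hu']
    have e1 : ∑ k ∈ C, u' k * a k = W := by
      have h1 := hu.2
      rw [← Finset.add_sum_erase _ _ hi] at h1 ⊢
      have h2 : ∑ x ∈ C.erase i, u' x * a x =
          ∑ x ∈ C.erase i, u x * a x + ∑ x ∈ C.erase i, μ x * a x := by
        rw [← Finset.sum_add_distrib]
        exact Finset.sum_congr rfl fun x hx => by rw [e0 x hx, add_mul]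
      rw [h2, hμ1, e0', hc, Nat.sub_mul]
      have h3 : c * a i ≤ u i * a i := Nat.mul_le_mul_right _ hcu
      have h4 : a i * c = c * a i := mul_comm _ _
      omega
    have hPu' : P u' := by
      refine ⟨fun k hk => ?_, e1⟩
      have hki : k ≠ i := fun h => hk (h ▸ hi)
      simp only [hu', if_neg hki, if_neg hk]
    have e2 : L u + 1 ≤ L u' := by
      simp only [hL]
      rw [← Finset.add_sum_erase _ _ hi, ← Finset.add_sum_erase (a := i) C _ hi]
      have h2 : ∑ x ∈ C.erase i, u' x * a x * κ x =
          ∑ x ∈ C.erase i, u x * a x * κ x + ∑ x ∈ C.erase i, μ x * a x * κ x := by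
        rw [← Finset.sum_add_distrib]
        exact Finset.sum_congr rfl fun x hx => by rw [e0 x hx]; ring
      rw [h2, e0', Nat.sub_mul, Nat.sub_mul]
      have h3 : c * a i * κ i ≤ u i * a i * κ i :=
        Nat.mul_le_mul_right _ (Nat.mul_le_mul_right _ hcu)
      have h4 : D i * κ i = c * a i * κ i := by rw [hc, mul_comm (a i) c]
      omega
    have h5 := hmax u' hPu'
    have h6 := hQlt u hu
    have h7 : N * (L u + 1) ≤ N * L u' := Nat.mul_le_mul_left _ e2
    rw [mul_add, mul_one] at h7
    omega
  · -- the box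
    intro J hJ
    have hJC : ∀ k ∈ J, k ∈ C := fun k hk => (mem_erase.1 (hJ hk)).2
    set B : Finset (ι → ℕ) := Fintype.piFinset fun k => if k ∈ J then range (u k + 1) else {0}
      with hB
    have hcard : B.card = ∏ k ∈ J, (u k + 1) := by
      rw [hB, Fintype.card_piFinset]
      have : ∀ k, (if k ∈ J then range (u k + 1) else {0} : Finset ℕ).card =
          if k ∈ J then u k + 1 else 1 := by
        intro k
        split_ifs <;> simp
      rw [Finset.prod_congr rfl fun k _ => this k, Finset.prod_ite_mem, Finset.univ_inter]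
    have hmemB : ∀ m ∈ B, (∀ k, m k ≤ u k) ∧ ∀ k, k ∉ J → m k = 0 := by
      intro m hm
      rw [hB, Fintype.mem_piFinset] at hm
      refine ⟨fun k => ?_, fun k hk => ?_⟩
      · have := hm k
        split_ifs at this with h
        · have := mem_range.1 this
          omega
        · rw [mem_singleton.1 this]
          exact Nat.zero_le _
      · have := hm k
        rw [if_neg hk] at this
        exact mem_singleton.1 this
    rw [← hcard, ← Finset.card_range (a i₀)]
    refine Finset.card_le_card_of_injOn (fun m => (∑ k ∈ C, m k * a k) % a i₀) ?_ ?_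
    · intro m _
      exact mem_coe.2 (mem_range.2 (Nat.mod_lt _ (ha i₀ hi₀)))
    · -- injectivity
      have main : ∀ m ∈ B, ∀ m' ∈ B, (∑ k ∈ C, m k * a k) % a i₀ = (∑ k ∈ C, m' k * a k) % a i₀ →
          ∑ k ∈ C, m' k * a k ≤ ∑ k ∈ C, m k * a k → m = m' := by
        intro m hm m' hm' hmod hle
        obtain ⟨hm1, hm2⟩ := hmemB m hm
        obtain ⟨hm1', hm2'⟩ := hmemB m' hm'
        obtain ⟨t, ht⟩ : a i₀ ∣ ∑ k ∈ C, m k * a k - ∑ k ∈ C, m' k * a k :=
          (Nat.modEq_iff_dvd' hle).1 hmod.symm
        have e1 : ∀ v v' : ι → ℕ, (∀ k, v k ≤ u k) →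
            ∑ k ∈ C, (u k - v k + v' k) * a k + ∑ k ∈ C, v k * a k =
              W + ∑ k ∈ C, v' k * a k := by
          intro v v' hv
          rw [← hu.2, ← Finset.sum_add_distrib, ← Finset.sum_add_distrib]
          refine Finset.sum_congr rfl fun k _ => ?_
          rw [← add_mul, ← add_mul]
          congr 1
          have := hv k
          omega
        rcases Nat.eq_zero_or_pos t with ht0 | ht0
        · rw [ht0, mul_zero] at ht
          have hee : ∑ k ∈ C, m k * a k = ∑ k ∈ C, m' k * a k := by omega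
          set u₁ : ι → ℕ := fun k => u k - m k + m' k with hu₁
          set u₂ : ι → ℕ := fun k => u k - m' k + m k with hu₂
          have hP1 : P u₁ := by
            refine ⟨fun k hk => ?_, ?_⟩
            · have h1 := hu.1 k hk
              have h2 := hm2' k fun h => hk (hJC k h)
              simp only [hu₁]
              omega
            · have := e1 m m' hm1
              simp only [hu₁]
              omega
          have hP2 : P u₂ := by
            refine ⟨fun k hk => ?_, ?_⟩
            · have h1 := hu.1 k hk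
              have h2 := hm2 k fun h => hk (hJC k h)
              simp only [hu₂]
              omega
            · have := e1 m' m hm1'
              simp only [hu₂]
              omega
          have hL12 : L u₁ + L u₂ = 2 * L u := by
            simp only [hL]
            rw [← Finset.sum_add_distrib, Finset.mul_sum]
            refine Finset.sum_congr rfl fun k _ => ?_
            have h1 : u₁ k + u₂ k = 2 * u k := by
              have := hm1 k
              have := hm1' k
              simp only [hu₁, hu₂]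
              omega
            calc u₁ k * a k * κ k + u₂ k * a k * κ k = (u₁ k + u₂ k) * a k * κ k := by ring
              _ = 2 * (u k * a k * κ k) := by rw [h1]; ring
          by_contra hne
          have hQ12 : 2 * Q u < Q u₁ + Q u₂ := by
            simp only [hQ]
            rw [← Finset.sum_add_distrib, Finset.mul_sum]
            obtain ⟨k₁, hk₁⟩ := Function.ne_iff.1 hne
            have hz : ∀ k, ((u₁ k : ℤ)) = u k - m k + m' k ∧ ((u₂ k : ℤ)) = u k - m' k + m k := by
              intro k
              have := hm1 k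
              have := hm1' k
              simp only [hu₁, hu₂]
              omega
            refine Finset.sum_lt_sum (fun k _ => ?_) ⟨k₁, mem_univ _, ?_⟩
            · obtain ⟨z1, z2⟩ := hz k
              have : (2 * (u k : ℤ) ^ 2) ≤ (u₁ k : ℤ) ^ 2 + (u₂ k : ℤ) ^ 2 := by
                rw [z1, z2]
                nlinarith [sq_nonneg ((m k : ℤ) - m' k)]
              exact_mod_cast this
            · obtain ⟨z1, z2⟩ := hz k₁
              have hne' : ((m k₁ : ℤ) - m' k₁) ≠ 0 := by
                intro h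
                apply hk₁
                omega
              have : (2 * (u k₁ : ℤ) ^ 2) < (u₁ k₁ : ℤ) ^ 2 + (u₂ k₁ : ℤ) ^ 2 := by
                rw [z1, z2]
                have := pow_pos (abs_pos.2 hne') 2
                rw [sq_abs] at this
                nlinarith
              exact_mod_cast this
          have h1 := hmax u₁ hP1
          have h2 := hmax u₂ hP2
          have h3 : N * L u₁ + N * L u₂ = 2 * (N * L u) := by
            rw [← mul_add, hL12]
            ring
          omega
        · exfalso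
          apply hF
          obtain ⟨s, rfl⟩ : ∃ s, t = s + 1 := ⟨t - 1, by omega⟩
          have h1 := e1 m m' hm1
          have h2 : ∑ k ∈ C, (u k - m k + m' k) * a k + s * a i₀ = F := by
            have h3 : a i₀ * (s + 1) = s * a i₀ + a i₀ := by ring
            omega
          rw [← h2]
          exact (sg a C).add_mem ⟨_, rfl⟩ (mul_mem_sg hi₀ _)
      intro m hm m' hm' hmod
      simp only at hmod
      rcases le_total (∑ k ∈ C, m' k * a k) (∑ k ∈ C, m k * a k) with h | h
      · exact main m hm m' hm' hmod h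
      · exact (main m' hm' m hm hmod.symm h).symm

end Pool.Agent.V5helper12.FJ
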