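import Pool.Agent.V5helper12.FJ.Cop1

/-!
# Weighted complete intersections: coprime weights of the nonzero coordinates
-/

set_option autoImplicit false
set_option linter.unusedSectionVars false

namespace Pool.Agent.V5helper12.FJ

open Finset

variable {ι κ : Type*} [Fintype ι] [DecidableEq ι] [Fintype κ] [DecidableEq κ]

/-- large numbers belong to a semigroup generated by weights without common factor -/
theorem exists_conductor {a : ι → ℕ} {C : Finset ι} (ha : ∀ i ∈ C, 0 < a i) (hC : C.Nonempty)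
    (hg : C.gcd a = 1) : ∃ N : ℕ, ∀ n, N ≤ n → n ∈ sg a C := by
  classical
  obtain ⟨i₀, hi₀⟩ := hC
  have hstart : Th (sg a C) (a i₀) (1 - a i₀) := by
    rintro n ⟨t, ht⟩ hB
    have h0 : (0 : ℤ) < a i₀ := by exact_mod_cast ha i₀ hi₀
    have ht0 : 0 ≤ t := by
      by_contra hcon
      push Not at hcon
      have : t ≤ -1 := by omega
      have : (a i₀ : ℤ) * t ≤ a i₀ * (-1) := mul_le_mul_of_nonneg_left this h0.le
      omega
    refine ⟨t.toNat * a i₀, mul_mem_sg hi₀ _, ?_⟩
    push_cast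
    rw [Int.toNat_of_nonneg ht0, ht]
    ring
  have hfin := hstart.chain C.toList (fun k hk => mem_sg_of_mem (Finset.mem_toList.1 hk))
    (fun k hk => ha k (Finset.mem_toList.1 hk)) (ha i₀ hi₀)
  have hG1 : Gl a (a i₀) C.toList = 1 := by
    have : Gl a (a i₀) C.toList ∣ C.gcd a := by
      refine Finset.dvd_gcd fun k hk => ?_
      exact Gl_dvd_right _ _ _ k (Finset.mem_toList.2 hk)
    rw [hg] at this
    exact Nat.dvd_one.1 this
  rw [hG1] at hfin
  set B : ℤ := 1 - a i₀ + ((Wl a (a i₀) C.toList).sum : ℕ) - ((C.toList.map a).sum : ℕ) with hB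
  refine ⟨B.toNat, fun n hn => ?_⟩
  obtain ⟨s, hs, hsn⟩ := hfin (n : ℤ) (one_dvd _) (by
    have := Int.self_le_toNat B
    have h2 : (B.toNat : ℤ) ≤ n := by exact_mod_cast hn
    exact this.trans h2)
  have : s = n := by exact_mod_cast hsn
  rwa [this] at hs

/-- the largest number not in the semigroup -/
theorem exists_frobenius {a : ι → ℕ} {C : Finset ι} (ha : ∀ i ∈ C, 1 < a i) (hC : C.Nonempty)
    (hg : C.gcd a = 1) : ∃ F : ℕ, F ∉ sg a C ∧ ∀ n, F < n → n ∈ sg a C := by
  classical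
  obtain ⟨N, hN⟩ := exists_conductor (fun i hi => (Nat.zero_lt_one.trans (ha i hi))) hC hg
  have h1 : 1 ∉ sg a C := by
    rintro ⟨m, hm⟩
    have : ∃ k ∈ C, m k * a k ≠ 0 := by
      by_contra hcon
      push Not at hcon
      rw [Finset.sum_eq_zero hcon] at hm
      omega
    obtain ⟨k, hk, hk0⟩ := this
    have h2 : m k * a k ≤ 1 := by
      rw [← hm]
      exact Finset.single_le_sum (f := fun k => m k * a k) (fun _ _ => Nat.zero_le _) hk
    have h3 : a k ≤ m k * a k := Nat.le_mul_of_pos_left _ (Nat.pos_of_ne_zero fun h => by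
      rw [h, zero_mul] at hk0
      exact hk0 rfl)
    have := ha k hk
    omega
  obtain ⟨F, hF, hmax⟩ := exists_max_of_bdd (fun n => n ∉ sg a C) id N (fun n hn => by
    by_contra hcon
    push Not at hcon
    exact hn (hN n hcon.le)) ⟨1, h1⟩
  refine ⟨F, hF, fun n hn => ?_⟩
  by_contra hcon
  have : n ≤ F := hmax n hcon
  omega

/-- the data -/
structure CopSys (a : ι → ℕ) (d : κ → ℕ) (I : Finset ι) (D : ι → ℕ) : Prop where
  ha : ∀ i, 0 < a i
  hd : ∀ j, 0 < d j
  hI : I.Nonempty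
  hI1 : ∀ i ∈ I, 1 < a i
  hcop : ∀ i ∈ I, ∀ k ∈ I, i ≠ k → Nat.Coprime (a i) (a k)
  hIg : I.gcd a = 1
  hDpos : ∀ i ∈ I, 0 < D i
  hDdvd : ∀ i ∈ I, a i ∣ D i
  hDmem : ∀ i ∈ I, D i ∈ sg a (I.erase i)
  h1 : ∀ z θ, 1 < z → ((univ \ I).filter fun i => z ∣ a i ∧ θ ≤ a i).card ≤
    (univ.filter fun j => z ∣ d j ∧ θ ≤ d j).card
  h2 : ∀ z θ, 1 < z → ∀ i ∈ I, z ∣ a i → θ ≤ D i →
    ((univ \ I).filter fun i => z ∣ a i ∧ θ ≤ a i).card + 1 ≤
    (univ.filter fun j => z ∣ d j ∧ θ ≤ d j).card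

variable {a : ι → ℕ} {d : κ → ℕ} {I : Finset ι} {D : ι → ℕ}

theorem bigProd_add (θ : ℕ) (A B : Multiset ℕ) :
    bigProd θ (A + B) = bigProd θ A * bigProd θ B := by
  unfold bigProd
  rw [Multiset.filter_add, Multiset.prod_add]

theorem bigProd_map (θ : ℕ) (s : Finset ι) (g : ι → ℕ) :
    bigProd θ (s.val.map g) = ∏ i ∈ s.filter (fun i => θ ≤ g i), g i := by
  unfold bigProd
  rw [Multiset.filter_map]
  rfl

/-- the arithmetic theorem -/
theorem CopSys.mem_sg (S : CopSys a d I D) {e : ℕ}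
    (he : ∑ j, (d j - 1) ≤ e + ∑ i, (a i - 1)) : e ∈ sg a I := by
  classical
  -- the minimal closed set
  obtain ⟨C, hCmem, hCmin⟩ := Finset.exists_min_image
    (I.powerset.filter fun C => C.Nonempty ∧ ∀ i ∈ C, D i ∈ sg a (C.erase i)) Finset.card
    ⟨I, mem_filter.2 ⟨mem_powerset_self _, S.hI, S.hDmem⟩⟩
  obtain ⟨hCI', hCne, hCcl⟩ := mem_filter.1 hCmem
  have hCI : C ⊆ I := mem_powerset.1 hCI'
  have hmin : ∀ U ⊆ C, U.Nonempty → (∀ i ∈ U, D i ∈ sg a (U.erase i)) → U = C := by
    intro U hU hUne hUcl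
    have := hCmin U (mem_filter.2 ⟨mem_powerset.2 (hU.trans hCI), hUne, hUcl⟩)
    exact Finset.eq_of_subset_of_card_le hU this
  have haC : ∀ i ∈ C, 0 < a i := fun i _ => S.ha i
  have hCg : C.gcd a = 1 := by
    obtain ⟨i, hi⟩ := hCne
    obtain ⟨m, hm⟩ := hCcl i hi
    obtain ⟨k, hk⟩ : (C.erase i).Nonempty := by
      by_contra hcon
      rw [not_nonempty_iff_eq_empty] at hcon
      rw [hcon, Finset.sum_empty] at hm
      have := S.hDpos i (hCI hi)
      omega
    have h1 : C.gcd a ∣ Nat.gcd (a i) (a k) :=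
      Nat.dvd_gcd (Finset.gcd_dvd hi) (Finset.gcd_dvd (mem_erase.1 hk).2)
    rw [S.hcop i (hCI hi) k (hCI (mem_erase.1 hk).2) (mem_erase.1 hk).1.symm] at h1
    exact Nat.dvd_one.1 h1
  obtain ⟨F, hF, hFmax⟩ := exists_frobenius (fun i hi => S.hI1 i (hCI hi)) hCne hCg
  obtain ⟨i₀, hi₀, hD₀⟩ := Finset.exists_max_image C D hCne
  obtain ⟨pot, hpot⟩ := exists_potential haC hCcl hmin hi₀
  have hai₀ := S.ha i₀
  obtain ⟨u, hu1, hu2, hu3⟩ := exists_row haC hi₀ hpot (fun i hi => S.hDdvd i (hCI hi)) hF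
    (hFmax _ (by omega))
  have haD : ∀ i ∈ I, a i ≤ D i := fun i hi => Nat.le_of_dvd (S.hDpos i hi) (S.hDdvd i hi)
  -- the multisets
  set E1 : Multiset ℕ := (C.erase i₀).val.map fun i => (u i + 1) * a i with hE1
  set E2 : Multiset ℕ := (I \ C).val.map a with hE2
  set K : Multiset ℕ := (univ \ I).val.map a with hK
  set B : Multiset ℕ := (univ : Finset κ).val.map d with hB
  have hBpos : ∀ x ∈ B, 0 < x := by
    intro x hx
    obtain ⟨j, -, rfl⟩ := Multiset.mem_map.1 hx
    exact S.hd j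
  have hApos : ∀ x ∈ K + (E1 + E2), 0 < x := by
    intro x hx
    rcases Multiset.mem_add.1 hx with h | h
    · obtain ⟨i, -, rfl⟩ := Multiset.mem_map.1 h
      exact S.ha i
    · rcases Multiset.mem_add.1 h with h | h
      · obtain ⟨i, -, rfl⟩ := Multiset.mem_map.1 h
        exact Nat.mul_pos (Nat.succ_pos _) (S.ha i)
      · obtain ⟨i, -, rfl⟩ := Multiset.mem_map.1 h
        exact S.ha i
  have hdom : ∀ θ, bigProd θ (K + (E1 + E2)) ≤ bigProd θ B := by
    intro θ
    rw [bigProd_add, bigProd_add, hE1, hE2, hK, bigProd_map, bigProd_map, bigProd_map]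
    -- the comparison with the degrees
    have h1 : (K.filter fun x => θ ≤ x).prod * ∏ i ∈ I.filter (fun i => θ ≤ D i), a i ∣
        bigProd θ B := by
      have e1 : ∏ i ∈ I.filter (fun i => θ ≤ D i), a i =
          ((I.filter fun i => θ ≤ D i).val.map a).prod := rfl
      rw [e1, ← Multiset.prod_add]
      unfold bigProd
      refine prod_dvd_prod_of_count _ _ ?_ ?_ ?_
      · intro x hx
        rcases Multiset.mem_add.1 hx with h | h
        · obtain ⟨i, -, rfl⟩ := Multiset.mem_map.1 (Multiset.mem_filter.1 h).1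
          exact S.ha i
        · obtain ⟨i, -, rfl⟩ := Multiset.mem_map.1 h
          exact S.ha i
      · intro x hx
        exact hBpos x (Multiset.mem_filter.1 hx).1
      · intro p r hp hr
        have hz : 1 < p ^ r := Nat.one_lt_pow hr.ne' hp.one_lt
        rw [Multiset.countP_add, hK, hB, Multiset.filter_map, Multiset.filter_map,
          Multiset.countP_map, Multiset.countP_map, Multiset.countP_map, Multiset.filter_filter,
          Multiset.filter_filter]
        have c1 : (Multiset.filter (fun i => p ^ r ∣ a i ∧ ((fun x => θ ≤ x) ∘ a) i)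
            (univ \ I).val).card = ((univ \ I).filter fun i => p ^ r ∣ a i ∧ θ ≤ a i).card := rfl
        have c2 : (Multiset.filter (fun i => p ^ r ∣ d i ∧ ((fun x => θ ≤ x) ∘ d) i)
            (univ : Finset κ).val).card =
            ((univ : Finset κ).filter fun i => p ^ r ∣ d i ∧ θ ≤ d i).card := rfl
        have c3 : (Multiset.filter (fun i => p ^ r ∣ a i) (I.filter fun i => θ ≤ D i).val).card =
            ((I.filter fun i => θ ≤ D i).filter fun i => p ^ r ∣ a i).card := rfl
        rw [c1, c2, c3]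
        by_cases hex : ∃ i ∈ I, p ^ r ∣ a i ∧ θ ≤ D i
        · obtain ⟨i, hi, hpi, hθi⟩ := hex
          have h3 := S.h2 (p ^ r) θ hz i hi hpi hθi
          have h4 : ((I.filter fun i => θ ≤ D i).filter fun i => p ^ r ∣ a i).card ≤ 1 := by
            rw [Finset.card_le_one]
            intro x hx y hy
            obtain ⟨hx1, hx2⟩ := mem_filter.1 hx
            obtain ⟨hy1, hy2⟩ := mem_filter.1 hy
            by_contra hxy
            have h5 := S.hcop x (mem_filter.1 hx1).1 y (mem_filter.1 hy1).1 hxy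
            have h6 := Nat.dvd_gcd hx2 hy2
            rw [h5] at h6
            have := Nat.dvd_one.1 h6
            omega
          omega
        · have h3 := S.h1 (p ^ r) θ hz
          have h4 : ((I.filter fun i => θ ≤ D i).filter fun i => p ^ r ∣ a i) = ∅ := by
            rw [Finset.eq_empty_iff_forall_notMem]
            intro x hx
            obtain ⟨hx1, hx2⟩ := mem_filter.1 hx
            exact hex ⟨x, (mem_filter.1 hx1).1, hx2, (mem_filter.1 hx1).2⟩
          rw [h4, Finset.card_empty, add_zero]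
          exact h3
    have h2 : (∏ i ∈ (C.erase i₀).filter (fun i => θ ≤ (u i + 1) * a i), (u i + 1) * a i) *
        ∏ i ∈ (I \ C).filter (fun i => θ ≤ a i), a i ≤ ∏ i ∈ I.filter (fun i => θ ≤ D i), a i := by
      set J := (C.erase i₀).filter (fun i => θ ≤ (u i + 1) * a i) with hJ
      set R := (I \ C).filter (fun i => θ ≤ a i) with hR
      have hRsub : R ⊆ I.filter (fun i => θ ≤ D i) := by
        intro i hi
        obtain ⟨hi1, hi2⟩ := mem_filter.1 hi
        exact mem_filter.2 ⟨(mem_sdiff.1 hi1).1, hi2.trans (haD i (mem_sdiff.1 hi1).1)⟩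
      rcases J.eq_empty_or_nonempty with hJ0 | ⟨i, hi⟩
      · rw [hJ0, Finset.prod_empty, one_mul]
        exact Finset.prod_le_prod_of_subset_of_one_le' hRsub fun i _ _ => S.ha i
      · have hJsub : ∀ i ∈ J, i ∈ C ∧ i ≠ i₀ ∧ θ ≤ D i := by
          intro i hi
          obtain ⟨hi1, hi2⟩ := mem_filter.1 hi
          obtain ⟨hi3, hi4⟩ := mem_erase.1 hi1
          exact ⟨hi4, hi3, hi2.trans (hu2 i hi4 hi3)⟩
        rw [Finset.prod_mul_distrib]
        have h3 : ∏ i ∈ J, (u i + 1) ≤ a i₀ := hu3 J (Finset.filter_subset _ _)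
        have hdisj : Disjoint J R := by
          rw [Finset.disjoint_left]
          intro x hx hx'
          exact (mem_sdiff.1 (mem_filter.1 hx').1).2 (hJsub x hx).1
        have h0 : i₀ ∉ J ∪ R := by
          intro h
          rcases mem_union.1 h with h | h
          · exact (hJsub i₀ h).2.1 rfl
          · exact (mem_sdiff.1 (mem_filter.1 h).1).2 hi₀
        calc (∏ i ∈ J, (u i + 1)) * (∏ i ∈ J, a i) * ∏ i ∈ R, a i
            ≤ a i₀ * (∏ i ∈ J, a i) * ∏ i ∈ R, a i :=
              Nat.mul_le_mul_right _ (Nat.mul_le_mul_right _ h3)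
          _ = ∏ i ∈ insert i₀ (J ∪ R), a i := by
              rw [Finset.prod_insert h0, Finset.prod_union hdisj, mul_assoc]
          _ ≤ ∏ i ∈ I.filter (fun i => θ ≤ D i), a i := by
              refine Finset.prod_le_prod_of_subset_of_one_le' ?_ fun i _ _ => S.ha i
              intro x hx
              rcases mem_insert.1 hx with rfl | hx
              · obtain ⟨h4, -, h6⟩ := hJsub i hi
                exact mem_filter.2 ⟨hCI hi₀, h6.trans (hD₀ i h4)⟩
              · rcases mem_union.1 hx with hx | hx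
                · obtain ⟨h4, -, h6⟩ := hJsub x hx
                  exact mem_filter.2 ⟨hCI h4, h6⟩
                · exact hRsub hx
    have h4 : ∏ i ∈ (univ \ I).filter (fun i => θ ≤ a i), a i = (K.filter fun x => θ ≤ x).prod := by
      rw [hK, ← bigProd_map]
      rfl
    rw [h4]
    exact le_trans (Nat.mul_le_mul_left _ h2) (Nat.le_of_dvd (bigProd_pos hBpos) h1)
  have hmain := sum_sub_one_le_of_bigProd _ _ hApos hBpos hdom
  rw [Multiset.map_add, Multiset.map_add, Multiset.sum_add, Multiset.sum_add, hK, hE1, hE2, hB,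
    Multiset.map_map, Multiset.map_map, Multiset.map_map, Multiset.map_map] at hmain
  have e1 : (((univ \ I).val.map ((fun x => x - 1) ∘ a))).sum = ∑ i ∈ univ \ I, (a i - 1) := rfl
  have e2 : (((I \ C).val.map ((fun x => x - 1) ∘ a))).sum = ∑ i ∈ I \ C, (a i - 1) := rfl
  have e3 : ((univ : Finset κ).val.map ((fun x => x - 1) ∘ d)).sum = ∑ j, (d j - 1) := rfl
  have e4 : ((C.erase i₀).val.map ((fun x => x - 1) ∘ fun i => (u i + 1) * a i)).sum =
      ∑ i ∈ C.erase i₀, ((u i + 1) * a i - 1) := rfl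
  rw [e1, e2, e3, e4] at hmain
  have e5 : ∑ i ∈ C.erase i₀, ((u i + 1) * a i - 1) =
      ∑ i ∈ C.erase i₀, u i * a i + ∑ i ∈ C.erase i₀, (a i - 1) := by
    rw [← Finset.sum_add_distrib]
    refine Finset.sum_congr rfl fun i _ => ?_
    have := S.ha i
    have h : (u i + 1) * a i = u i * a i + a i := by ring
    omega
  have e6 : ∑ i ∈ C, (a i - 1) = (a i₀ - 1) + ∑ i ∈ C.erase i₀, (a i - 1) :=
    (Finset.add_sum_erase _ _ hi₀).symm
  have e7 : ∑ i ∈ I, (a i - 1) = ∑ i ∈ I \ C, (a i - 1) + ∑ i ∈ C, (a i - 1) :=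
    (Finset.sum_sdiff hCI).symm
  have e8 : ∑ i, (a i - 1) = ∑ i ∈ univ \ I, (a i - 1) + ∑ i ∈ I, (a i - 1) :=
    (Finset.sum_sdiff (Finset.subset_univ I)).symm
  refine sg_mono hCI (hFmax e ?_)
  rw [e5, hu1] at hmain
  omega

end Pool.Agent.V5helper12.FJ
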