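import Mathlib

/-!
# Comparison of sums of natural numbers by their divisors
-/

set_option autoImplicit false

namespace Pool.Agent.V5helper12.FJ

open Finset

/-- `w - gcd(w, M)` is the sum of `φ(z)` over the divisors `z` of `w` that do not divide `M` -/
theorem sub_gcd_eq {M w N : ℕ} (hw : 0 < w) (hN : w ≤ N) :
    w - Nat.gcd w M =
      ∑ z ∈ (Icc 1 N).filter (fun z => ¬ z ∣ M), if z ∣ w then Nat.totient z else 0 := by
  classical
  have h1 : ∑ z ∈ Icc 1 N, (if z ∣ w then Nat.totient z else 0) = w := by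
    rw [← Finset.sum_filter]
    have h2 : (Icc 1 N).filter (fun z => z ∣ w) = w.divisors := by
      ext z
      simp only [mem_filter, mem_Icc, Nat.mem_divisors]
      constructor
      · rintro ⟨-, h⟩
        exact ⟨h, hw.ne'⟩
      · rintro ⟨h, -⟩
        exact ⟨⟨Nat.pos_of_dvd_of_pos h hw, (Nat.le_of_dvd hw h).trans hN⟩, h⟩
    rw [h2]
    exact Nat.sum_totient w
  have h3 : ∑ z ∈ (Icc 1 N).filter (fun z => z ∣ M), (if z ∣ w then Nat.totient z else 0) =
      Nat.gcd w M := by
    rw [← Finset.sum_filter, Finset.filter_filter]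
    have h2 : (Icc 1 N).filter (fun z => z ∣ M ∧ z ∣ w) = (Nat.gcd w M).divisors := by
      ext z
      simp only [mem_filter, mem_Icc, Nat.mem_divisors]
      constructor
      · rintro ⟨-, h, h'⟩
        exact ⟨Nat.dvd_gcd h' h, (Nat.gcd_pos_of_pos_left _ hw).ne'⟩
      · rintro ⟨h, -⟩
        have h4 := h.trans (Nat.gcd_dvd_left _ _)
        exact ⟨⟨Nat.pos_of_dvd_of_pos h4 hw, (Nat.le_of_dvd hw h4).trans hN⟩,
          h.trans (Nat.gcd_dvd_right _ _), h4⟩
    rw [h2]
    exact Nat.sum_totient _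
  have h4 := Finset.sum_filter_add_sum_filter_not (Icc 1 N) (fun z => z ∣ M)
    (fun z => if z ∣ w then Nat.totient z else 0)
  rw [h1, h3] at h4
  omega

theorem sum_eq {M N : ℕ} (W : Multiset ℕ) (hW : ∀ w ∈ W, 0 < w ∧ w ≤ N) :
    (W.map fun w => w - Nat.gcd w M).sum =
      ∑ z ∈ (Icc 1 N).filter (fun z => ¬ z ∣ M), Nat.totient z * W.countP (fun w => z ∣ w) := by
  classical
  induction W using Multiset.induction_on with
  | empty => simp
  | cons w W ih =>
    rw [Multiset.map_cons, Multiset.sum_cons, ih fun x hx => hW x (Multiset.mem_cons_of_mem hx),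
      sub_gcd_eq (hW w (Multiset.mem_cons_self _ _)).1 (hW w (Multiset.mem_cons_self _ _)).2,
      ← Finset.sum_add_distrib]
    refine Finset.sum_congr rfl fun z _ => ?_
    rw [Multiset.countP_cons]
    split_ifs <;> ring

/-- comparison of the sums of two families of natural numbers by their divisors -/
theorem sum_le_of_count {M : ℕ} (W D : Multiset ℕ) (hW : ∀ w ∈ W, 0 < w)
    (hD : ∀ w ∈ D, 0 < w)
    (h : ∀ z, 1 < z → ¬ z ∣ M → W.countP (fun w => z ∣ w) ≤ D.countP (fun w => z ∣ w)) :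
    (W.map fun w => w - Nat.gcd w M).sum ≤ (D.map fun w => w - Nat.gcd w M).sum := by
  classical
  set N := W.sum + D.sum with hN
  rw [sum_eq W (N := N) fun w hw => ⟨hW w hw, (Multiset.single_le_sum
      (fun _ _ => Nat.zero_le _) w hw).trans (Nat.le_add_right _ _)⟩,
    sum_eq D (N := N) fun w hw => ⟨hD w hw, (Multiset.single_le_sum
      (fun _ _ => Nat.zero_le _) w hw).trans (Nat.le_add_left _ _)⟩]
  refine Finset.sum_le_sum fun z hz => Nat.mul_le_mul_left _ ?_
  obtain ⟨h1, h2⟩ := mem_filter.1 hz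
  refine h z ?_ h2
  have h3 := (mem_Icc.1 h1).1
  rcases Nat.lt_or_ge 1 z with h4 | h4
  · exact h4
  · exfalso
    have h5 : z = 1 := le_antisymm h4 h3
    exact h2 (h5 ▸ one_dvd M)

end Pool.Agent.V5helper12.FJ
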