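import Pool.Agent.V5helper12.FJ.Arith3
import Pool.Agent.R920.WC.Poly
import Pool.Agent.H552R3.Tsen.Zero

/-!
# Global generation for weighted complete intersections
-/

set_option autoImplicit false

namespace Pool.Agent.V5helper12.FJ

open Finset MvPolynomial Pool.Agent.R920.WC

theorem eval_bind {σ τ : Type*} (p : MvPolynomial σ ℂ) (g : σ → MvPolynomial τ ℂ) (x : τ → ℂ) :
    eval x (bind₁ g p) = eval (fun s => eval x (g s)) p := by
  induction p using MvPolynomial.induction_on with
  | C a => simp
  | add P Q hP hQ => rw [map_add, map_add, hP, hQ, map_add]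
  | mul_X P s hP => rw [map_mul, map_mul, hP, map_mul, bind₁_X_right, eval_X]

variable {ι κ : Type*} [Fintype ι] [DecidableEq ι] [Fintype κ] [DecidableEq κ]

theorem eval_zero {a : ι → ℕ} {p : MvPolynomial ι ℂ} {d : ℕ} (hp : IsWeightedHomogeneous a p d)
    (hd : 0 < d) : eval (0 : ι → ℂ) p = 0 := by
  by_contra h
  obtain ⟨m, hm, hm0⟩ := exists_monomial p _ h
  have h1 := hp (mem_support_iff.1 hm)
  rw [weight_eq, Finset.sum_eq_zero (fun i _ => by rw [hm0 i rfl, zero_mul])] at h1
  omega

/-- the number of weights divisible by `z` is at most the number of degrees divisible by `z` -/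
theorem card_le_card_of_free {a : ι → ℕ} {d : κ → ℕ} (hd : ∀ j, 0 < d j)
    {f : κ → MvPolynomial ι ℂ} (hf : ∀ j, IsWeightedHomogeneous a (f j) (d j))
    (hgcd : ∀ v : ι → ℂ, v ≠ 0 → (∀ j, eval v (f j) = 0) → ∀ g : ℕ, (∀ i, v i ≠ 0 → g ∣ a i) →
      g = 1) (z : ℕ) (hz : 1 < z) :
    (univ.filter fun i => z ∣ a i).card ≤ (univ.filter fun j => z ∣ d j).card := by
  classical
  by_contra hlt
  push Not at hlt
  set g : ι → MvPolynomial {i // z ∣ a i} ℂ := fun i => if h : z ∣ a i then X ⟨i, h⟩ else 0 with hg
  obtain ⟨x, hx0, hx⟩ := Pool.Agent.H552R3.Tsen.exists_common_zero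
    (fun j : {j // z ∣ d j} => bind₁ g (f j)) (by
      intro j
      rw [eval_bind]
      have : (fun s => eval (0 : {i // z ∣ a i} → ℂ) (g s)) = 0 := by
        funext s
        rw [hg]
        simp only
        split_ifs <;> simp
      rw [this]
      exact eval_zero (hf j) (hd j)) (by
      rw [Fintype.card_subtype, Fintype.card_subtype]
      exact hlt)
  set v : ι → ℂ := fun i => if h : z ∣ a i then x ⟨i, h⟩ else 0 with hv
  have hev : (fun s => eval x (g s)) = v := by
    funext s
    rw [hg, hv]
    simp only
    split_ifs <;> simp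
  have hv0 : v ≠ 0 := by
    intro h
    apply hx0
    funext i
    have := congrFun h i.1
    rw [hv] at this
    simp only [dif_pos i.2] at this
    exact this
  have hvz : ∀ i, v i ≠ 0 → z ∣ a i := by
    intro i hi
    by_contra h
    apply hi
    rw [hv]
    simp only [dif_neg h]
  have hfv : ∀ j, eval v (f j) = 0 := by
    intro j
    by_cases hj : z ∣ d j
    · have := hx ⟨j, hj⟩
      rw [eval_bind, hev] at this
      exact this
    · by_contra hne
      obtain ⟨m, hm, hm0⟩ := exists_monomial (f j) _ hne
      have h1 := hf j (mem_support_iff.1 hm)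
      rw [weight_eq] at h1
      apply hj
      rw [← h1]
      refine Finset.dvd_sum fun i _ => ?_
      by_cases hvi : v i = 0
      · rw [hm0 i hvi, zero_mul]
        exact dvd_zero _
      · exact (hvz i hvi).mul_left _
  have := hgcd v hv0 hfv z hvz
  omega

/-- the weights `a i` with `v i ≠ 0` generate all numbers `e ≥ ∑ (d j - 1) - ∑ (a i - 1)` -/
theorem generated (a : ι → ℕ) (ha : ∀ i, 0 < a i) (d : κ → ℕ) (hd : ∀ j, 0 < d j)
    (f : κ → MvPolynomial ι ℂ) (hf : ∀ j, IsWeightedHomogeneous a (f j) (d j))
    (hgcd : ∀ v : ι → ℂ, v ≠ 0 → (∀ j, eval v (f j) = 0) → ∀ g : ℕ, (∀ i, v i ≠ 0 → g ∣ a i) →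
      g = 1)
    {e : ℕ} (he : ∑ j, (d j - 1) ≤ e + ∑ i, (a i - 1))
    (v : ι → ℂ) (hv : v ≠ 0) (hfv : ∀ j, eval v (f j) = 0)
    (hH : ∀ i, v i ≠ 0 → ∀ k, k ≠ i → ∀ j, Nat.gcd (a i) (a k) ∣ d j) :
    ∃ s : MvPolynomial ι ℂ, IsWeightedHomogeneous a s e ∧ eval v s ≠ 0 := by
  classical
  set I : Finset ι := Finset.univ.filter fun i => v i ≠ 0 with hI
  have hmemI : ∀ i, i ∈ I ↔ v i ≠ 0 := fun i => by simp [hI]
  have hIne : I.Nonempty := by
    by_contra h
    rw [Finset.not_nonempty_iff_eq_empty] at h
    refine hv (funext fun i => ?_)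
    by_contra hi
    have := (hmemI i).2 hi
    rw [h] at this
    exact absurd this (Finset.notMem_empty i)
  have key : ∃ m : ι → ℕ, ∑ k ∈ I, m k * a k = e := by
    by_cases h1 : ∃ i ∈ I, a i = 1
    · obtain ⟨i, hi, hai⟩ := h1
      refine ⟨fun k => if k = i then e else 0, ?_⟩
      simp [hi, hai]
    · push Not at h1
      have hI1 : ∀ i ∈ I, 1 < a i := fun i hi => by
        have := h1 i hi
        have := ha i
        omega
      have S : Sys a d I := by
        refine ⟨ha, hd, card_le_card_of_free hd hf hgcd, hIne, hI1, ?_, ?_, ?_⟩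
        · exact hgcd v hv hfv _ fun i hi => Finset.gcd_dvd ((hmemI i).2 hi)
        · intro i hi k hk j
          exact hH i ((hmemI i).1 hi) k hk j
        · intro i hi
          have hvi : v i ≠ 0 := (hmemI i).1 hi
          obtain ⟨j, hj⟩ : ∃ j, eval (Pi.single i 1 : ι → ℂ) (f j) ≠ 0 := by
            by_contra hcon
            push Not at hcon
            have h2 := hgcd (Pi.single i 1) (by
              intro h
              have := congrFun h i
              rw [Pi.single_eq_same] at this
              exact one_ne_zero this) hcon (a i) (by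
              intro i' hi'
              have : i' = i := by
                by_contra hne
                exact hi' (Pi.single_eq_of_ne hne _)
              rw [this])
            have := hI1 i hi
            omega
          obtain ⟨m₀, hm₀, hm₀0⟩ := exists_monomial (f j) _ hj
          have h2 : m₀ = Finsupp.single i (m₀ i) := by
            ext k
            by_cases hk : k = i
            · subst hk
              simp
            · rw [hm₀0 k (Pi.single_eq_of_ne hk _), Finsupp.single_eq_of_ne hk]
          have h3 := hf j (mem_support_iff.1 hm₀)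
          rw [weight_eq, Finset.sum_eq_single_of_mem i (Finset.mem_univ _) (by
            intro k _ hk
            rw [hm₀0 k (Pi.single_eq_of_ne hk _), zero_mul])] at h3
          refine ⟨j, ⟨m₀ i, by rw [← h3, mul_comm]⟩, ?_⟩
          obtain ⟨m, hm, hne, hm0⟩ := exists_other (f j) v (hfv j) hm₀ (by
            intro k hk
            have : k ≠ i := fun h => hvi (h ▸ hk)
            rw [h2, Finsupp.single_eq_of_ne this])
          refine ⟨m, ?_, ?_⟩
          · have h4 := hf j (mem_support_iff.1 hm)
            rw [weight_eq] at h4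
            rw [← h4]
            refine Finset.sum_subset (Finset.subset_univ _) fun k _ hk => ?_
            have : v k = 0 := by
              by_contra h
              exact hk ((hmemI k).2 h)
            rw [hm0 k this, zero_mul]
          · by_contra hcon
            push Not at hcon
            have h4 : ∀ k, k ≠ i → m k = 0 := by
              intro k hk
              by_cases hkI : k ∈ I
              · exact hcon k hkI hk
              · refine hm0 k ?_
                by_contra h
                exact hkI ((hmemI k).2 h)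
            have h5 := hf j (mem_support_iff.1 hm)
            rw [weight_eq, Finset.sum_eq_single_of_mem i (Finset.mem_univ _)
              (fun k _ hk => by rw [h4 k hk, zero_mul])] at h5
            have h6 : m i = m₀ i := by
              have : m i * a i = m₀ i * a i := by rw [h5, h3]
              exact Nat.eq_of_mul_eq_mul_right (ha i) this
            refine hne ?_
            rw [h2]
            ext k
            by_cases hk : k = i
            · subst hk
              rw [h6]
              simp
            · rw [h4 k hk, Finsupp.single_eq_of_ne hk]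
      exact S.mem_sg he
  obtain ⟨m, hm⟩ := key
  refine ⟨monomial (Finsupp.equivFunOnFinite.symm fun k => if k ∈ I then m k else 0) 1, ?_, ?_⟩
  · refine isWeightedHomogeneous_monomial _ _ _ ?_
    rw [weight_eq, ← hm]
    simp only [Finsupp.equivFunOnFinite_symm_apply_apply, ite_mul, zero_mul]
    rw [Finset.sum_ite_mem, Finset.univ_inter]
  · rw [eval_monomial, one_mul, Finsupp.prod_fintype _ _ (fun i => pow_zero _)]
    rw [prod_ne_zero_iff']
    intro i hi
    have : i ∉ I := fun h => (hmemI i).1 h hi
    simp [this]

/-- the condition on the greatest common divisors holds in codimension at most two -/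
theorem gcd_dvd_of_card_le_two {a : ι → ℕ} {d : κ → ℕ} (ha : ∀ i, 0 < a i)
    (h1 : ∀ z, 1 < z → (univ.filter fun i => z ∣ a i).card ≤ (univ.filter fun j => z ∣ d j).card)
    (hκ : Fintype.card κ ≤ 2) (i k : ι) (hki : k ≠ i) (j : κ) : Nat.gcd (a i) (a k) ∣ d j := by
  classical
  set z := Nat.gcd (a i) (a k) with hz
  have hz0 : 0 < z := Nat.gcd_pos_of_pos_left _ (ha i)
  rcases Nat.lt_or_ge 1 z with hz1 | hz1
  · have h2 : 2 ≤ (univ.filter fun i => z ∣ a i).card := by
      rw [← Finset.card_pair hki.symm]
      refine card_le_card fun x hx => mem_filter.2 ⟨mem_univ _, ?_⟩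
      rcases Finset.mem_insert.1 hx with rfl | hx
      · exact Nat.gcd_dvd_left _ _
      · rw [Finset.mem_singleton] at hx
        exact hx ▸ Nat.gcd_dvd_right _ _
    have h3 := h1 z hz1
    have h4 : (univ.filter fun j => z ∣ d j) = univ := by
      refine Finset.eq_univ_of_card _ (le_antisymm (card_le_univ _) ?_)
      omega
    have h5 : j ∈ univ.filter fun j => z ∣ d j := by
      rw [h4]
      exact mem_univ j
    exact (mem_filter.1 h5).2
  · have : z = 1 := by omega
    rw [this]
    exact one_dvd _

/-- the sum of the weights is not too large -/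
theorem sum_weights_le {a : ι → ℕ} {d : κ → ℕ} (ha : ∀ i, 0 < a i) (hd : ∀ j, 0 < d j)
    (h1 : ∀ z, 1 < z → (univ.filter fun i => z ∣ a i).card ≤ (univ.filter fun j => z ∣ d j).card) :
    ∑ i, (a i - 1) ≤ ∑ j, (d j - 1) := by
  classical
  have h2 := sum_le_of_count (M := 1) ((univ : Finset ι).val.map a) ((univ : Finset κ).val.map d)
    (by
      intro w hw
      obtain ⟨i, -, rfl⟩ := Multiset.mem_map.1 hw
      exact ha i) (by
      intro w hw
      obtain ⟨j, -, rfl⟩ := Multiset.mem_map.1 hw
      exact hd j) (by
      intro z hz _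
      rw [Multiset.countP_map, Multiset.countP_map]
      exact h1 z hz)
  simp only [Nat.gcd_one_right, Multiset.map_map] at h2
  exact h2

end Pool.Agent.V5helper12.FJ
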