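import Pool.Agent.V5helper12.FJ.Cop2
import Pool.Agent.V5helper12.FJ.Geo

/-!
# Global generation for weighted complete intersections: counting equations of large degree
-/

set_option autoImplicit false

namespace Pool.Agent.V5helper12.FJ

open Finset MvPolynomial Pool.Agent.R920.WC

variable {ι κ : Type*} [Fintype ι] [DecidableEq ι] [Fintype κ] [DecidableEq κ]

/-- if all but `#T` equations vanish on a coordinate subspace on which all weights are divisible by
`z > 1`, then its dimension is at most `#T` -/
theorem card_le_card_of_subspace {a : ι → ℕ} {d : κ → ℕ} (hd : ∀ j, 0 < d j)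
    {f : κ → MvPolynomial ι ℂ} (hf : ∀ j, IsWeightedHomogeneous a (f j) (d j))
    (hgcd : ∀ v : ι → ℂ, v ≠ 0 → (∀ j, eval v (f j) = 0) → ∀ g : ℕ, (∀ i, v i ≠ 0 → g ∣ a i) →
      g = 1) {z : ℕ} (hz : 1 < z) (L : Finset ι) (hL : ∀ i ∈ L, z ∣ a i) (T : Finset κ)
    (hT : ∀ j, j ∉ T → ∀ w : ι → ℂ, (∀ i, i ∉ L → w i = 0) → eval w (f j) = 0) :
    L.card ≤ T.card := by
  classical
  by_contra hlt
  push Not at hlt
  set g : ι → MvPolynomial {i // i ∈ L} ℂ := fun i => if h : i ∈ L then X ⟨i, h⟩ else 0 with hg
  obtain ⟨x, hx0, hx⟩ := Pool.Agent.H552R3.Tsen.exists_common_zero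
    (fun j : {j // j ∈ T} => bind₁ g (f j)) (by
      intro j
      rw [eval_bind]
      have : (fun s => eval (0 : {i // i ∈ L} → ℂ) (g s)) = 0 := by
        funext s
        rw [hg]
        simp only
        split_ifs <;> simp
      rw [this]
      exact eval_zero (hf j) (hd j)) (by
      rw [Fintype.card_coe, Fintype.card_coe]
      exact hlt)
  set v : ι → ℂ := fun i => if h : i ∈ L then x ⟨i, h⟩ else 0 with hv
  have hev : (fun s => eval x (g s)) = v := by
    funext s
    rw [hg, hv]
    simp only
    split_ifs <;> simp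
  have hv0 : v ≠ 0 := by
    intro h
    apply hx0
    funext i
    have := congrFun h i.1
    rw [hv] at this
    simp only [dif_pos i.2] at this
    exact this
  have hvL : ∀ i, i ∉ L → v i = 0 := by
    intro i hi
    rw [hv]
    simp only [dif_neg hi]
  have hvz : ∀ i, v i ≠ 0 → z ∣ a i := by
    intro i hi
    refine hL i ?_
    by_contra h
    exact hi (hvL i h)
  have hfv : ∀ j, eval v (f j) = 0 := by
    intro j
    by_cases hj : j ∈ T
    · have := hx ⟨j, hj⟩
      rw [eval_bind, hev] at this
      exact this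
    · exact hT j hj v hvL
  have := hgcd v hv0 hfv z hvz
  omega

/-- a form of degree prime to `z` vanishes if only coordinates with weights divisible by `z` are
nonzero -/
theorem eval_eq_zero_of_not_dvd {a : ι → ℕ} {p : MvPolynomial ι ℂ} {n z : ℕ}
    (hp : IsWeightedHomogeneous a p n) (hz : ¬ z ∣ n) {w : ι → ℂ} (hw : ∀ i, w i ≠ 0 → z ∣ a i) :
    eval w p = 0 := by
  by_contra hne
  obtain ⟨m, hm, hm0⟩ := exists_monomial p _ hne
  have h1 := hp (mem_support_iff.1 hm)
  rw [weight_eq] at h1
  apply hz
  rw [← h1]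
  refine Finset.dvd_sum fun i _ => ?_
  by_cases hvi : w i = 0
  · rw [hm0 i hvi, zero_mul]
    exact dvd_zero _
  · exact (hw i hvi).mul_left _

/-- the form given by a monomial -/
theorem exists_form {a : ι → ℕ} {e : ℕ} {I : Finset ι} (hm : e ∈ sg a I) {v : ι → ℂ}
    (hv : ∀ i ∈ I, v i ≠ 0) :
    ∃ s : MvPolynomial ι ℂ, IsWeightedHomogeneous a s e ∧ eval v s ≠ 0 := by
  classical
  obtain ⟨m, hm⟩ := hm
  refine ⟨monomial (Finsupp.equivFunOnFinite.symm fun k => if k ∈ I then m k else 0) 1, ?_, ?_⟩
  · refine isWeightedHomogeneous_monomial _ _ _ ?_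
    rw [weight_eq, ← hm]
    simp only [Finsupp.equivFunOnFinite_symm_apply_apply, ite_mul, zero_mul]
    rw [Finset.sum_ite_mem, Finset.univ_inter]
  · rw [eval_monomial, one_mul, Finsupp.prod_fintype _ _ (fun i => pow_zero _)]
    rw [prod_ne_zero_iff']
    intro i hi
    have : i ∉ I := fun h => hv i h hi
    simp [this]

/-- global generation at a point whose nonzero coordinates have pairwise coprime weights -/
theorem generated_of_coprime (a : ι → ℕ) (ha : ∀ i, 0 < a i) (d : κ → ℕ) (hd : ∀ j, 0 < d j)
    (f : κ → MvPolynomial ι ℂ) (hf : ∀ j, IsWeightedHomogeneous a (f j) (d j))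
    (hgcd : ∀ v : ι → ℂ, v ≠ 0 → (∀ j, eval v (f j) = 0) → ∀ g : ℕ, (∀ i, v i ≠ 0 → g ∣ a i) →
      g = 1)
    {e : ℕ} (he : ∑ j, (d j - 1) ≤ e + ∑ i, (a i - 1))
    (v : ι → ℂ) (hv : v ≠ 0) (hfv : ∀ j, eval v (f j) = 0)
    (hcop : ∀ i k, v i ≠ 0 → v k ≠ 0 → i ≠ k → Nat.Coprime (a i) (a k)) :
    ∃ s : MvPolynomial ι ℂ, IsWeightedHomogeneous a s e ∧ eval v s ≠ 0 := by
  classical
  set I : Finset ι := Finset.univ.filter fun i => v i ≠ 0 with hI
  have hmemI : ∀ i, i ∈ I ↔ v i ≠ 0 := fun i => by simp [hI]
  have hIne : I.Nonempty := by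
    by_contra h
    rw [Finset.not_nonempty_iff_eq_empty] at h
    refine hv (funext fun i => ?_)
    by_contra hi
    have := (hmemI i).2 hi
    rw [h] at this
    exact absurd this (Finset.notMem_empty i)
  refine exists_form (I := I) ?_ fun i hi => (hmemI i).1 hi
  by_cases h1 : ∃ i ∈ I, a i = 1
  · obtain ⟨i, hi, hai⟩ := h1
    refine ⟨fun k => if k = i then e else 0, ?_⟩
    simp [hi, hai]
  push Not at h1
  have hI1 : ∀ i ∈ I, 1 < a i := fun i hi => by
    have := h1 i hi
    have := ha i
    omega
  have hIg : I.gcd a = 1 := hgcd v hv hfv _ fun i hi => Finset.gcd_dvd ((hmemI i).2 hi)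
  have hother : ∀ i ∈ I, ∃ k ∈ I, k ≠ i := by
    intro i hi
    by_contra hcon
    push Not at hcon
    have h2 : a i ∣ I.gcd a := Finset.dvd_gcd fun k hk => by rw [hcon k hk]
    rw [hIg] at h2
    have := Nat.dvd_one.1 h2
    have := hI1 i hi
    omega
  -- the least multiple of a weight generated by the others
  have hex : ∀ i ∈ I, ∃ n : ℕ, 0 < n ∧ a i ∣ n ∧ n ∈ sg a (I.erase i) := by
    intro i hi
    obtain ⟨k, hk, hki⟩ := hother i hi
    exact ⟨a i * a k, Nat.mul_pos (ha i) (ha k), dvd_mul_right _ _,
      mul_mem_sg (mem_erase.2 ⟨hki, hk⟩) _⟩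
  set D : ι → ℕ := fun i => if h : ∃ n : ℕ, 0 < n ∧ a i ∣ n ∧ n ∈ sg a (I.erase i) then
    Nat.find h else 0 with hDdef
  have hD : ∀ i ∈ I, (0 < D i ∧ a i ∣ D i ∧ D i ∈ sg a (I.erase i)) ∧
      ∀ n, 0 < n → a i ∣ n → n ∈ sg a (I.erase i) → D i ≤ n := by
    intro i hi
    have h := hex i hi
    simp only [hDdef, dif_pos h]
    exact ⟨Nat.find_spec h, fun n h1 h2 h3 => Nat.find_min' h ⟨h1, h2, h3⟩⟩
  -- large variables do not occur in equations of small degree
  have hsmall : ∀ {m : ι →₀ ℕ} {n θ : ℕ}, Finsupp.weight a m = n → n < θ → ∀ k, θ ≤ a k →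
      m k = 0 := by
    intro m n θ hm hn k hk
    by_contra hne
    rw [weight_eq] at hm
    have h2 : m k * a k ≤ ∑ i, m i * a i :=
      Finset.single_le_sum (f := fun i => m i * a i) (fun _ _ => Nat.zero_le _) (mem_univ k)
    have h3 : a k ≤ m k * a k := Nat.le_mul_of_pos_left _ (Nat.pos_of_ne_zero hne)
    omega
  have S : CopSys a d I D := by
    refine ⟨ha, hd, hIne, hI1, ?_, hIg, fun i hi => (hD i hi).1.1, fun i hi => (hD i hi).1.2.1,
      fun i hi => (hD i hi).1.2.2, ?_, ?_⟩
    · intro i hi k hk hik
      exact hcop i k ((hmemI i).1 hi) ((hmemI k).1 hk) hik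
    · intro z θ hz
      refine card_le_card_of_subspace hd hf hgcd hz _ (fun i hi => (mem_filter.1 hi).2.1) _ ?_
      intro j hj w hw
      have hwz : ∀ i, w i ≠ 0 → z ∣ a i ∧ θ ≤ a i := by
        intro i hi
        by_contra hcon
        exact hi (hw i fun h => hcon (mem_filter.1 h).2)
      by_cases hzj : z ∣ d j
      · have hdj : d j < θ := by
          by_contra hcon
          exact hj (mem_filter.2 ⟨mem_univ _, hzj, not_lt.1 hcon⟩)
        by_contra hne
        obtain ⟨m, hm, hm0⟩ := exists_monomial (f j) _ hne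
        have h2 := hf j (mem_support_iff.1 hm)
        have h3 : ∀ k, m k = 0 := by
          intro k
          by_cases hk : w k = 0
          · exact hm0 k hk
          · exact hsmall h2 hdj k (hwz k hk).2
        rw [weight_eq, Finset.sum_eq_zero fun k _ => by rw [h3 k, zero_mul]] at h2
        have := hd j
        omega
      · exact eval_eq_zero_of_not_dvd (hf j) hzj fun i hi => (hwz i hi).1
    · intro z θ hz i hi hzi hθi
      have hiL : i ∉ (univ \ I).filter fun i => z ∣ a i ∧ θ ≤ a i := fun h =>
        (mem_sdiff.1 (mem_filter.1 h).1).2 hi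
      rw [← Finset.card_insert_of_notMem hiL]
      refine card_le_card_of_subspace hd hf hgcd hz _ (fun k hk => ?_) _ ?_
      · rcases mem_insert.1 hk with rfl | hk
        · exact hzi
        · exact (mem_filter.1 hk).2.1
      intro j hj w hw
      have hwz : ∀ k, w k ≠ 0 → k = i ∨ (z ∣ a k ∧ θ ≤ a k) := by
        intro k hk
        by_contra hcon
        push Not at hcon
        refine hk (hw k fun h => ?_)
        rcases mem_insert.1 h with h | h
        · exact hcon.1 h
        · have := (mem_filter.1 h).2
          exact absurd this.2 (not_le.2 (hcon.2 this.1))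
      by_cases hzj : z ∣ d j
      · have hdj : d j < θ := by
          by_contra hcon
          exact hj (mem_filter.2 ⟨mem_univ _, hzj, not_lt.1 hcon⟩)
        by_contra hne
        obtain ⟨m, hm, hm0⟩ := exists_monomial (f j) _ hne
        have h2 := hf j (mem_support_iff.1 hm)
        have h3 : ∀ k, k ≠ i → m k = 0 := by
          intro k hk
          by_cases hwk : w k = 0
          · exact hm0 k hwk
          · rcases hwz k hwk with h | h
            · exact absurd h hk
            · exact hsmall h2 hdj k h.2
        obtain ⟨m', hm', hne', hm0'⟩ := exists_other (f j) v (hfv j) hm (by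
          intro k hk
          refine h3 k fun h => ?_
          exact (hmemI i).1 hi (h ▸ hk))
        have h4 := hf j (mem_support_iff.1 hm')
        rw [weight_eq, Finset.sum_eq_single_of_mem i (Finset.mem_univ _) (fun k _ hk => by
          rw [h3 k hk, zero_mul])] at h2
        have h5 : m' i * a i + ∑ k ∈ I.erase i, m' k * a k = d j := by
          rw [weight_eq] at h4
          rw [Finset.add_sum_erase I (fun k => m' k * a k) hi, ← h4]
          refine Finset.sum_subset (Finset.subset_univ _) fun k _ hk => ?_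
          have : v k = 0 := by
            by_contra h
            exact hk ((hmemI k).2 h)
          rw [hm0' k this, zero_mul]
        have h6 : m' i < m i := by
          by_contra hcon
          push Not at hcon
          have h7 : m i * a i ≤ m' i * a i := Nat.mul_le_mul_right _ hcon
          have h8 : ∑ k ∈ I.erase i, m' k * a k = 0 := by omega
          have h9 : m' i * a i = m i * a i := by omega
          have h10 := Nat.eq_of_mul_eq_mul_right (ha i) h9
          refine hne' ?_
          ext k
          by_cases hk : k = i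
          · rw [hk, h10]
          · rw [h3 k hk]
            by_cases hkI : k ∈ I
            · have h11 := (Finset.sum_eq_zero_iff.1 h8) k (mem_erase.2 ⟨hk, hkI⟩)
              rcases Nat.mul_eq_zero.1 h11 with h | h
              · exact h
              · have := ha k
                omega
            · refine hm0' k ?_
              by_contra h
              exact hkI ((hmemI k).2 h)
        have h7 : (m i - m' i) * a i = ∑ k ∈ I.erase i, m' k * a k := by
          rw [Nat.sub_mul]
          omega
        have h8 := (hD i hi).2 ((m i - m' i) * a i) (Nat.mul_pos (by omega) (ha i))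
          (dvd_mul_left _ _) ⟨m', h7.symm⟩
        omega
      · refine eval_eq_zero_of_not_dvd (hf j) hzj fun k hk => ?_
        rcases hwz k hk with h | h
        · rw [h]
          exact hzi
        · exact h.1
  exact S.mem_sg he

end Pool.Agent.V5helper12.FJ
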