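import Pool.Agent.V5helper12.FJ.Geo2

/-!
# Global generation for weighted complete intersections: redundant coordinates
-/

set_option autoImplicit false

namespace Pool.Agent.V5helper12.FJ

open Finset MvPolynomial Pool.Agent.R920.WC

variable {ι κ : Type*} [Fintype ι] [DecidableEq ι] [Fintype κ] [DecidableEq κ]

/-- substitution of forms of the right degrees -/
theorem isWeightedHomogeneous_bind {a : ι → ℕ} {p : MvPolynomial ι ℂ} {n : ℕ}
    (hp : IsWeightedHomogeneous a p n) {g : ι → MvPolynomial ι ℂ}
    (hg : ∀ i, IsWeightedHomogeneous a (g i) (a i)) :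
    IsWeightedHomogeneous a (bind₁ g p) n := by
  classical
  rw [p.as_sum, map_sum]
  refine IsWeightedHomogeneous.sum _ _ _ fun m hm => ?_
  rw [bind₁_monomial]
  have h1 := hp (mem_support_iff.1 hm)
  rw [weight_eq] at h1
  have h2 : IsWeightedHomogeneous a (∏ i ∈ m.support, g i ^ m i) (∑ i ∈ m.support, m i • a i) :=
    IsWeightedHomogeneous.prod _ _ _ fun i _ => (hg i).pow (m i)
  have h3 : ∑ i ∈ m.support, m i • a i = n := by
    rw [← h1]
    refine Finset.sum_subset (Finset.subset_univ _) fun i _ hi => ?_
    rw [Finsupp.notMem_support_iff.1 hi, zero_smul]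
  rw [h3] at h2
  have h4 := (isWeightedHomogeneous_C a (coeff m p)).mul h2
  rwa [zero_add] at h4

/-- redundant coordinates can be removed -/
theorem reduce_coordinates (a : ι → ℕ) (ha : ∀ i, 0 < a i) (d : κ → ℕ)
    (e : ℕ) (J : Finset ι)
    (H : ∀ f : κ → MvPolynomial ι ℂ, (∀ j, IsWeightedHomogeneous a (f j) (d j)) →
      (∀ v : ι → ℂ, v ≠ 0 → (∀ j, eval v (f j) = 0) → ∀ g : ℕ, (∀ i, v i ≠ 0 → g ∣ a i) → g = 1) →
      ∀ v : ι → ℂ, v ≠ 0 → (∀ j, eval v (f j) = 0) → (∀ i, v i ≠ 0 → i ∈ J) →
      ∃ s : MvPolynomial ι ℂ, IsWeightedHomogeneous a s e ∧ eval v s ≠ 0) :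
    ∀ (n : ℕ) (f : κ → MvPolynomial ι ℂ), (∀ j, IsWeightedHomogeneous a (f j) (d j)) →
      (∀ v : ι → ℂ, v ≠ 0 → (∀ j, eval v (f j) = 0) → ∀ g : ℕ, (∀ i, v i ≠ 0 → g ∣ a i) → g = 1) →
      ∀ v : ι → ℂ, v ≠ 0 → (∀ j, eval v (f j) = 0) →
      ((univ.filter fun i => v i ≠ 0) \ J).card = n →
      (∀ i ∈ J, v i ≠ 0) → (∀ i, v i ≠ 0 → i ∉ J → a i ∈ sg a J) →
      ∃ s : MvPolynomial ι ℂ, IsWeightedHomogeneous a s e ∧ eval v s ≠ 0 := by
  classical
  intro n
  induction n with
  | zero =>
    intro f hf hgcd v hv hfv hn _ _
    refine H f hf hgcd v hv hfv fun i hi => ?_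
    rw [card_eq_zero, sdiff_eq_empty_iff_subset] at hn
    exact hn (mem_filter.2 ⟨mem_univ _, hi⟩)
  | succ n ih =>
    intro f hf hgcd v hv hfv hn hJ hred
    obtain ⟨r, hr⟩ : ((univ.filter fun i => v i ≠ 0) \ J).Nonempty := by
      rw [← card_pos]
      omega
    obtain ⟨hr1, hrJ⟩ := mem_sdiff.1 hr
    have hvr : v r ≠ 0 := (mem_filter.1 hr1).2
    obtain ⟨μ, hμ⟩ := hred r hvr hrJ
    -- the monomial
    set ν : ι →₀ ℕ := Finsupp.equivFunOnFinite.symm fun k => if k ∈ J then μ k else 0 with hν
    have hνa : ∀ k, ν k = if k ∈ J then μ k else 0 := fun k => by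
      simp [hν]
    have hνr : ν r = 0 := by rw [hνa, if_neg hrJ]
    have hνw : ∑ k, ν k * a k = a r := by
      rw [← hμ]
      simp only [hνa, ite_mul, zero_mul]
      rw [Finset.sum_ite_mem, Finset.univ_inter]
    have hνne : ∃ k, ν k ≠ 0 := by
      by_contra hcon
      push Not at hcon
      rw [Finset.sum_eq_zero fun k _ => by rw [hcon k, zero_mul]] at hνw
      have := ha r
      omega
    set M : (ι → ℂ) → ℂ := fun w => ∏ k, w k ^ ν k with hM
    have hMv : M v ≠ 0 := by
      rw [hM]
      simp only
      rw [prod_ne_zero_iff']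
      intro k hk
      rw [hνa, if_neg]
      intro h
      exact hJ k h hk
    set c : ℂ := v r / M v with hc
    set g : ι → MvPolynomial ι ℂ := fun i => if i = r then X r + monomial ν c else X i with hg
    have hgh : ∀ i, IsWeightedHomogeneous a (g i) (a i) := by
      intro i
      rw [hg]
      simp only
      split_ifs with h
      · subst h
        refine (isWeightedHomogeneous_X ℂ a i).add (isWeightedHomogeneous_monomial _ _ _ ?_)
        rw [weight_eq]
        exact hνw
      · exact isWeightedHomogeneous_X ℂ a i
    have hmon : ∀ w : ι → ℂ, eval w (monomial ν c) = c * M w := by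
      intro w
      rw [eval_monomial, Finsupp.prod_fintype _ _ (fun i => pow_zero _)]
    have hgev : ∀ w : ι → ℂ, (fun s => eval w (g s)) = Function.update w r (w r + c * M w) := by
      intro w
      funext s
      by_cases h : s = r
      · subst h
        rw [hg, Function.update_self]
        simp only [if_true, map_add, eval_X, hmon]
      · rw [hg, Function.update_of_ne h]
        simp only [if_neg h, eval_X]
    set v' : ι → ℂ := Function.update v r 0 with hv'
    have hMupd : ∀ (w : ι → ℂ) (x : ℂ), M (Function.update w r x) = M w := by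
      intro w x
      rw [hM]
      simp only
      refine Finset.prod_congr rfl fun k _ => ?_
      by_cases hk : k = r
      · rw [hk, hνr, pow_zero, pow_zero]
      · rw [Function.update_of_ne hk]
    have hvv : Function.update v' r (v' r + c * M v') = v := by
      rw [hv', hMupd, Function.update_self, Function.update_idem, zero_add, hc,
        div_mul_cancel₀ _ hMv, Function.update_eq_self]
    have hne' : ∀ k, k ≠ r → v' k = v k := fun k hk => Function.update_of_ne hk _ _
    have h0J : ∀ i ∈ J, v' i ≠ 0 := by
      intro i hi
      have : i ≠ r := fun h => hrJ (h ▸ hi)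
      rw [hne' i this]
      exact hJ i hi
    obtain ⟨s, hs, hsv⟩ := ih (fun j => bind₁ g (f j))
      (fun j => isWeightedHomogeneous_bind (hf j) hgh) (by
        intro w hw hfw z hz
        have hfw' : ∀ j, eval (Function.update w r (w r + c * M w)) (f j) = 0 := by
          intro j
          have := hfw j
          rw [eval_bind, hgev] at this
          exact this
        refine hgcd _ ?_ hfw' z ?_
        · intro h0
          apply hw
          have h1 : ∀ k, k ≠ r → w k = 0 := by
            intro k hk
            have := congrFun h0 k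
            rwa [Function.update_of_ne hk] at this
          have h2 : M w = 0 := by
            obtain ⟨k, hk⟩ := hνne
            have hkr : k ≠ r := fun h => hk (h ▸ hνr)
            rw [hM]
            simp only
            refine Finset.prod_eq_zero (mem_univ k) ?_
            rw [h1 k hkr, zero_pow hk]
          have h3 := congrFun h0 r
          rw [Function.update_self, h2, mul_zero, add_zero] at h3
          funext k
          by_cases hk : k = r
          · rw [hk]
            exact h3
          · exact h1 k hk
        · intro i hi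
          by_cases hir : i = r
          · subst hir
            by_cases hwi : w i = 0
            · rw [Function.update_self, hwi, zero_add] at hi
              have h1 : M w ≠ 0 := right_ne_zero_of_mul hi
              rw [hM] at h1
              simp only at h1
              rw [prod_ne_zero_iff'] at h1
              rw [← hνw]
              refine Finset.dvd_sum fun k _ => ?_
              by_cases hwk : w k = 0
              · rw [h1 k hwk, zero_mul]
                exact dvd_zero _
              · exact (hz k hwk).mul_left _
            · exact hz i hwi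
          · rw [Function.update_of_ne hir] at hi
            exact hz i hi) v' (by
        intro h0
        obtain ⟨k, hk⟩ := hνne
        have hkJ : k ∈ J := by
          by_contra h
          exact hk (by rw [hνa, if_neg h])
        exact h0J k hkJ (by rw [h0]; rfl)) (by
        intro j
        rw [eval_bind, hgev, hvv]
        exact hfv j) (by
        have h1 : (univ.filter fun i => v' i ≠ 0) \ J =
            ((univ.filter fun i => v i ≠ 0) \ J).erase r := by
          ext k
          simp only [mem_sdiff, mem_filter, mem_univ, true_and, mem_erase]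
          by_cases hk : k = r
          · subst hk
            simp [hv']
          · rw [hne' k hk]
            tauto
        rw [h1, card_erase_of_mem hr, hn]
        rfl) h0J (by
        intro i hi hiJ
        have : i ≠ r := by
          intro h
          apply hi
          rw [h, hv', Function.update_self]
        rw [hne' i this] at hi
        exact hred i hi hiJ)
    -- the form for `v`
    set g' : ι → MvPolynomial ι ℂ := fun i => if i = r then X r - monomial ν c else X i with hg'
    have hgh' : ∀ i, IsWeightedHomogeneous a (g' i) (a i) := by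
      intro i
      rw [hg']
      simp only
      split_ifs with h
      · subst h
        refine (isWeightedHomogeneous_X ℂ a i).sub (isWeightedHomogeneous_monomial _ _ _ ?_)
        rw [weight_eq]
        exact hνw
      · exact isWeightedHomogeneous_X ℂ a i
    refine ⟨bind₁ g' s, isWeightedHomogeneous_bind hs hgh', ?_⟩
    rw [eval_bind]
    have h1 : (fun i => eval v (g' i)) = v' := by
      funext i
      by_cases h : i = r
      · subst h
        rw [hg', hv', Function.update_self]
        simp only [if_true, map_sub, eval_X, hmon]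
        rw [hc, div_mul_cancel₀ _ hMv, sub_self]
      · rw [hg', hne' i h]
        simp only [if_neg h, eval_X]
    rw [h1]
    exact hsv

/-- global generation at a point such that the semigroup generated by the weights of its nonzero
coordinates is generated by pairwise coprime weights among them -/
theorem generated_of_coprime_generators (a : ι → ℕ) (ha : ∀ i, 0 < a i) (d : κ → ℕ)
    (hd : ∀ j, 0 < d j) (f : κ → MvPolynomial ι ℂ) (hf : ∀ j, IsWeightedHomogeneous a (f j) (d j))
    (hgcd : ∀ v : ι → ℂ, v ≠ 0 → (∀ j, eval v (f j) = 0) → ∀ g : ℕ, (∀ i, v i ≠ 0 → g ∣ a i) →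
      g = 1)
    {e : ℕ} (he : ∑ j, (d j - 1) ≤ e + ∑ i, (a i - 1))
    (v : ι → ℂ) (hv : v ≠ 0) (hfv : ∀ j, eval v (f j) = 0) (J : Finset ι) (hJ : ∀ i ∈ J, v i ≠ 0)
    (hcop : ∀ i ∈ J, ∀ k ∈ J, i ≠ k → Nat.Coprime (a i) (a k))
    (hred : ∀ i, v i ≠ 0 → i ∉ J → a i ∈ sg a J) :
    ∃ s : MvPolynomial ι ℂ, IsWeightedHomogeneous a s e ∧ eval v s ≠ 0 := by
  classical
  refine reduce_coordinates a ha d e J ?_ _ f hf hgcd v hv hfv rfl hJ hred
  intro f hf hgcd v hv hfv hvJ
  exact generated_of_coprime a ha d hd f hf hgcd he v hv hfv fun i k hi hk hik =>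
    hcop i (hvJ i hi) k (hvJ k hk) hik

end Pool.Agent.V5helper12.FJ
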